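import Pool.Agent.H662.FR.Stm

set_option autoImplicit false

namespace Pool.Agent.H662.FR

namespace XINS

open Nat.Partrec.Code

/-- the value with bound `k` -/
def Eb (k e : ℕ) : Option ℕ := evaln k (Denumerable.ofNat Nat.Partrec.Code e) (3 * e)

/-- active indices -/
def act (i : ℕ) : Bool := (Eb i.unpair.2 i.unpair.1).isSome && !(Eb (i.unpair.2 - 1) i.unpair.1).isSome

/-- the places -/
def nn (i : ℕ) : ℕ := bif act i then 3 * i.unpair.1 else 3 * i + 1

/-- the signs -/
def ss (i : ℕ) : Bool := (Eb i.unpair.2 i.unpair.1).getD 1 == 0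

theorem pEb : Primrec₂ Eb := by
  have h := primrec_evaln.comp (Primrec.pair (Primrec.pair (Primrec.fst (α := ℕ) (β := ℕ))
    ((Primrec.ofNat Nat.Partrec.Code).comp (Primrec.snd (α := ℕ) (β := ℕ))))
    (Primrec.nat_mul.comp (Primrec.const 3) (Primrec.snd (α := ℕ) (β := ℕ))))
  exact h

theorem pE1 : Primrec fun i : ℕ => Eb i.unpair.2 i.unpair.1 :=
  pEb.comp (Primrec.snd.comp Primrec.unpair) (Primrec.fst.comp Primrec.unpair)

theorem pE2 : Primrec fun i : ℕ => Eb (i.unpair.2 - 1) i.unpair.1 :=
  pEb.comp (Primrec.nat_sub.comp (Primrec.snd.comp Primrec.unpair) (Primrec.const 1))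
    (Primrec.fst.comp Primrec.unpair)

theorem pact : Primrec act :=
  Primrec.and.comp (Primrec.option_isSome.comp pE1)
    (Primrec.not.comp (Primrec.option_isSome.comp pE2))

theorem pnn : Primrec nn :=
  Primrec.cond pact (Primrec.nat_mul.comp (Primrec.const 3) (Primrec.fst.comp Primrec.unpair))
    (Primrec.succ.comp (Primrec.nat_mul.comp (Primrec.const 3) Primrec.id))

theorem pss : Primrec ss :=
  Primrec.beq.comp (Primrec.option_getD.comp pE1 (Primrec.const 1)) (Primrec.const 0)

theorem mono {k k' e x : ℕ} (h : k ≤ k') (hx : Eb k e = some x) : Eb k' e = some x :=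
  evaln_mono h hx

theorem act_iff (i : ℕ) : act i = true ↔ (∃ x, Eb i.unpair.2 i.unpair.1 = some x) ∧
    Eb (i.unpair.2 - 1) i.unpair.1 = none := by
  rw [act, Bool.and_eq_true, Option.isSome_iff_exists]
  simp

theorem act_inj {i j : ℕ} (hi : act i = true) (hj : act j = true)
    (h : i.unpair.1 = j.unpair.1) : i.unpair.2 ≤ j.unpair.2 := by
  by_contra hlt
  push Not at hlt
  rw [act_iff] at hi hj
  obtain ⟨x, hx⟩ := hj.1
  have hle : j.unpair.2 ≤ i.unpair.2 - 1 := by omega
  have := mono hle hx
  rw [← h, hi.2] at this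
  exact absurd this (by simp)

theorem nn_act {i : ℕ} (h : act i = true) : nn i = 3 * i.unpair.1 := by rw [nn, h]; rfl

theorem nn_not {i : ℕ} (h : act i = false) : nn i = 3 * i + 1 := by rw [nn, h]; rfl

theorem inj : Function.Injective nn := by
  intro i j hij
  rcases hi : act i with _ | _ <;> rcases hj : act j with _ | _
  · rw [nn_not hi, nn_not hj] at hij
    omega
  · rw [nn_not hi, nn_act hj] at hij
    omega
  · rw [nn_act hi, nn_not hj] at hij
    omega
  · rw [nn_act hi, nn_act hj] at hij
    have h1 : i.unpair.1 = j.unpair.1 := by omega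
    have h2 : i.unpair.2 = j.unpair.2 :=
      le_antisymm (act_inj hi hj h1) (act_inj hj hi h1.symm)
    rw [← Nat.pair_unpair i, ← Nat.pair_unpair j, h1, h2]

theorem ins (h : ℕ → Bool) (hh : Computable h) : ∃ i, h (nn i) ≠ ss i := by
  classical
  have hf : Computable fun x : ℕ => (bif h x then 1 else 0 : ℕ) :=
    Computable.cond hh (Computable.const 1) (Computable.const 0)
  have hp : Nat.Partrec (fun x : ℕ => Part.some (bif h x then 1 else 0 : ℕ)) :=
    Partrec.nat_iff.1 hf
  obtain ⟨c, hc⟩ := exists_code.1 hp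
  set e := Encodable.encode c with he
  have hce : Denumerable.ofNat Nat.Partrec.Code e = c := Denumerable.ofNat_encode c
  have hev : (bif h (3 * e) then 1 else 0 : ℕ) ∈ eval c (3 * e) := by
    rw [hc]
    exact Part.mem_some _
  obtain ⟨k0, hk0⟩ := evaln_complete.1 hev
  have hex : ∃ k, Eb k e = some (bif h (3 * e) then 1 else 0 : ℕ) := by
    refine ⟨k0, ?_⟩
    rw [Eb, hce]
    exact hk0
  have hfind := Nat.find_spec hex
  set k := Nat.find hex with hk
  have hkpos : k ≠ 0 := by
    intro h0
    rw [h0, Eb] at hfind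
    simp [evaln] at hfind
  have hprev : Eb (k - 1) e = none := by
    rcases hE : Eb (k - 1) e with _ | x
    · rfl
    · exfalso
      have h1 := mono (Nat.sub_le k 1) hE
      rw [h1] at hfind
      rw [hfind] at hE
      exact Nat.find_min hex (m := k - 1) (by omega) hE
  have hact : act (Nat.pair e k) = true := by
    rw [act_iff, Nat.unpair_pair]
    exact ⟨⟨_, hfind⟩, hprev⟩
  refine ⟨Nat.pair e k, ?_⟩
  rw [nn_act hact, ss, Nat.unpair_pair, hfind]
  simp only
  rcases h (3 * e) with _ | _ <;> simp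

end XINS

theorem t_INS : S_INS := by
  refine ⟨XINS.nn, XINS.ss, XINS.pnn, XINS.pss, XINS.inj, ?_, XINS.ins⟩
  intro i k
  rcases hi : XINS.act i with _ | _
  · rw [XINS.nn_not hi]
    omega
  · rw [XINS.nn_act hi]
    omega

end Pool.Agent.H662.FR
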