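import Pool.Agent.H662.FR.Stm

/-!
# KPR: the field is computable
-/

set_option autoImplicit false

namespace Pool.Agent.H662.FR

namespace XKPR

/-- the code of zero -/
def dflt : C × C := ([], [(1, 0, [])])

theorem dflt_ok : Ok dflt.1 ∧ Ok dflt.2 ∧ zt dflt.2 = false := by
  refine ⟨?_, ?_, by rfl⟩
  · intro e he
    simp [dflt] at he
  · intro e he
    simp only [dflt, List.mem_singleton] at he
    subst he
    exact List.nodup_nil

open Classical in
/-- normal form of a code of a quotient -/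
noncomputable def nrm (p : C × C) : C × C :=
  if Ok p.1 ∧ Ok p.2 ∧ zt p.2 = false then p else dflt

theorem nrm_primrec (hOk : PrimrecPred (fun L : C => Ok L)) (hz : Primrec zt) : Primrec nrm := by
  classical
  have h1 : PrimrecPred fun p : C × C => zt p.2 = false :=
    Primrec.eq.comp (hz.comp Primrec.snd) (Primrec.const false)
  have h2 : PrimrecPred fun p : C × C => Ok p.1 := hOk.comp Primrec.fst
  have h3 : PrimrecPred fun p : C × C => Ok p.2 := hOk.comp Primrec.snd
  exact Primrec.ite (h2.and (h3.and h1)) Primrec.id (Primrec.const _)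

theorem nrm_ok (p : C × C) : Ok (nrm p).1 ∧ Ok (nrm p).2 ∧ zt (nrm p).2 = false := by
  unfold nrm
  split_ifs with h
  · exact h
  · exact dflt_ok

theorem nrm_of {p : C × C} (h1 : Ok p.1) (h2 : Ok p.2) (h3 : zt p.2 = false) : nrm p = p := by
  unfold nrm
  rw [if_pos ⟨h1, h2, h3⟩]

theorem nrm_not {p : C × C} (h3 : zt p.2 = true) : nrm p = dflt := by
  unfold nrm
  rw [if_neg]
  rintro ⟨-, -, h⟩
  rw [h3] at h
  exact Bool.noConfusion h

/-- the code with a given number -/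
noncomputable def gd (m : ℕ) : C × C :=
  nrm ((Encodable.decode m : Option (C × C)).getD dflt)

theorem gd_primrec (hOk : PrimrecPred (fun L : C => Ok L)) (hz : Primrec zt) : Primrec gd :=
  (nrm_primrec hOk hz).comp (Primrec.option_getD.comp Primrec.decode (Primrec.const dflt))

theorem gd_ok (m : ℕ) : Ok (gd m).1 ∧ Ok (gd m).2 ∧ zt (gd m).2 = false := nrm_ok _

theorem gd_encode (p : C × C) : gd (Encodable.encode p) = nrm p := by
  unfold gd
  rw [Encodable.encodek]
  rfl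

end XKPR

open XKPR in
theorem t_KPR (hIND : S_IND) (hRNG : S_RNG) (hOKP : S_OKP) (hPRE : S_PRE) (hQUO : S_QUO) :
    S_KPR := by
  intro n s hn hs hinj τ ρ hτ hρ
  obtain ⟨ad, mu, ng, hadp, hmup, hngp, hztp, hok, hval⟩ := hRNG n s hn hs
  have hv := hval τ ρ hρ
  have hz := hIND n s hinj τ ρ hτ hρ
  have hmem := hQUO n s hn hs τ ρ hρ
  have hg : Primrec gd := gd_primrec hOKP hztp
  have hztne : ∀ L : C, Ok L → (zt L = false ↔ val τ ρ L ≠ 0) := by
    intro L hL
    rw [← Bool.not_eq_true, Ne, ← hz L hL]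
  have hne : ∀ m, val τ ρ (gd m).2 ≠ 0 := fun m =>
    (hztne _ (gd_ok m).2.1).1 (gd_ok m).2.2
  let ev : ℕ → KF τ ρ := fun m => ⟨val τ ρ (gd m).1 / val τ ρ (gd m).2,
    (hmem _).2 ⟨_, _, (gd_ok m).1, (gd_ok m).2.1, rfl⟩⟩
  have hev : ∀ m, ((ev m : KF τ ρ) : ℝ) = val τ ρ (gd m).1 / val τ ρ (gd m).2 := fun m => rfl
  -- value of the normal form
  have hnrm : ∀ p : C × C, Ok p.1 → Ok p.2 →
      val τ ρ (nrm p).1 / val τ ρ (nrm p).2 = val τ ρ p.1 / val τ ρ p.2 := by
    intro p h1 h2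
    by_cases h3 : zt p.2 = false
    · rw [nrm_of h1 h2 h3]
    · have h4 : zt p.2 = true := by simpa using h3
      rw [nrm_not h4, (hz _ h2).1 h4, div_zero]
      simp [dflt, val]
  have hevc : ∀ p : C × C, Ok p.1 → Ok p.2 →
      ((ev (Encodable.encode p) : KF τ ρ) : ℝ) = val τ ρ p.1 / val τ ρ p.2 := by
    intro p h1 h2
    rw [hev, gd_encode, hnrm p h1 h2]
  have : Infinite (KF τ ρ) := Infinite.of_injective (Nat.cast : ℕ → KF τ ρ) Nat.cast_injective
  have p11 : Primrec fun x : ℕ × ℕ => (gd x.1).1 := Primrec.fst.comp (hg.comp Primrec.fst)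
  have p12 : Primrec fun x : ℕ × ℕ => (gd x.1).2 := Primrec.snd.comp (hg.comp Primrec.fst)
  have p21 : Primrec fun x : ℕ × ℕ => (gd x.2).1 := Primrec.fst.comp (hg.comp Primrec.snd)
  have p22 : Primrec fun x : ℕ × ℕ => (gd x.2).2 := Primrec.snd.comp (hg.comp Primrec.snd)
  have hM : ∀ L L', Ok L → Ok L' → Ok (mu (L, L')) := fun L L' h h' => (hok L L' h h').2.1
  have hA : ∀ L L', Ok L → Ok L' → Ok (ad (L, L')) := fun L L' h h' => (hok L L' h h').1
  have hN : ∀ L, Ok L → Ok (ng L) := fun L h => (hok L L h h).2.2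
  have vM : ∀ L L', Ok L → Ok L' → val τ ρ (mu (L, L')) = val τ ρ L * val τ ρ L' :=
    fun L L' h h' => (hv L L' h h').2.1
  have vA : ∀ L L', Ok L → Ok L' → val τ ρ (ad (L, L')) = val τ ρ L + val τ ρ L' :=
    fun L L' h h' => (hv L L' h h').1
  have vN : ∀ L, Ok L → val τ ρ (ng L) = - val τ ρ L := fun L h => (hv L L h h).2.2
  refine hPRE (KF τ ρ) ev ?_ ?_ ?_ ?_ ?_ ?_
  · rintro ⟨x, hx⟩
    obtain ⟨L, L', h1, h2, rfl⟩ := (hmem x).1 hx
    exact ⟨Encodable.encode (L, L'), Subtype.ext (hevc (L, L') h1 h2)⟩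
  · have hP : Primrec fun x : ℕ × ℕ => zt (ad (mu ((gd x.1).1, (gd x.2).2),
        ng (mu ((gd x.2).1, (gd x.1).2)))) :=
      hztp.comp (hadp.comp ((hmup.comp (p11.pair p22)).pair
        (hngp.comp (hmup.comp (p21.pair p12)))))
    have hQ : PrimrecPred fun x : ℕ × ℕ => zt (ad (mu ((gd x.1).1, (gd x.2).2),
        ng (mu ((gd x.2).1, (gd x.1).2)))) = true :=
      Primrec.eq.comp hP (Primrec.const true)
    refine (hQ.of_eq fun x => ?_).computablePred
    have a1 := (gd_ok x.1).1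
    have a2 := (gd_ok x.1).2.1
    have b1 := (gd_ok x.2).1
    have b2 := (gd_ok x.2).2.1
    rw [hz _ (hA _ _ (hM _ _ a1 b2) (hN _ (hM _ _ b1 a2))), vA _ _ (hM _ _ a1 b2)
      (hN _ (hM _ _ b1 a2)), vN _ (hM _ _ b1 a2), vM _ _ a1 b2, vM _ _ b1 a2,
      ← Subtype.coe_inj, hev, hev, div_eq_div_iff (hne _) (hne _), ← sub_eq_add_neg, sub_eq_zero]
  · refine ⟨fun x => Encodable.encode (ad (mu ((gd x.1).1, (gd x.2).2),
      mu ((gd x.2).1, (gd x.1).2)), mu ((gd x.1).2, (gd x.2).2)), ?_, fun a b => ?_⟩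
    · exact (Primrec.encode.comp ((hadp.comp ((hmup.comp (p11.pair p22)).pair
        (hmup.comp (p21.pair p12)))).pair (hmup.comp (p12.pair p22)))).to_comp
    · have a1 := (gd_ok a).1
      have a2 := (gd_ok a).2.1
      have b1 := (gd_ok b).1
      have b2 := (gd_ok b).2.1
      have ha := hne a
      have hb := hne b
      apply Subtype.ext
      rw [hevc _ (hA _ _ (hM _ _ a1 b2) (hM _ _ b1 a2)) (hM _ _ a2 b2)]
      rw [vA _ _ (hM _ _ a1 b2) (hM _ _ b1 a2), vM _ _ a1 b2, vM _ _ b1 a2, vM _ _ a2 b2]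
      rw [Subfield.coe_add, hev, hev]
      field_simp
  · refine ⟨fun x => Encodable.encode (mu ((gd x.1).1, (gd x.2).1),
      mu ((gd x.1).2, (gd x.2).2)), ?_, fun a b => ?_⟩
    · exact (Primrec.encode.comp ((hmup.comp (p11.pair p21)).pair
        (hmup.comp (p12.pair p22)))).to_comp
    · have a1 := (gd_ok a).1
      have a2 := (gd_ok a).2.1
      have b1 := (gd_ok b).1
      have b2 := (gd_ok b).2.1
      apply Subtype.ext
      rw [hevc _ (hM _ _ a1 b1) (hM _ _ a2 b2)]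
      rw [vM _ _ a1 b1, vM _ _ a2 b2, Subfield.coe_mul, hev, hev, div_mul_div_comm]
  · refine ⟨fun x => Encodable.encode (ng (gd x).1, (gd x).2), ?_, fun a => ?_⟩
    · exact (Primrec.encode.comp ((hngp.comp (Primrec.fst.comp hg)).pair
        (Primrec.snd.comp hg))).to_comp
    · have a1 := (gd_ok a).1
      have a2 := (gd_ok a).2.1
      apply Subtype.ext
      have h := hevc (ng (gd a).1, (gd a).2) (hN _ a1) a2
      refine h.trans ?_
      rw [vN _ a1, Subfield.coe_neg, hev, neg_div]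
  · refine ⟨fun x => Encodable.encode ((gd x).2, (gd x).1), ?_, fun a => ?_⟩
    · exact (Primrec.encode.comp ((Primrec.snd.comp hg).pair (Primrec.fst.comp hg))).to_comp
    · have a1 := (gd_ok a).1
      have a2 := (gd_ok a).2.1
      apply Subtype.ext
      have h := hevc ((gd a).2, (gd a).1) a2 a1
      refine h.trans ?_
      rw [Subfield.coe_inv, hev, inv_div]

end Pool.Agent.H662.FR
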