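import Pool.Agent.H662.FR.Stm

/-!
# Linear independence of products of square roots over a subfield of the real numbers
-/

set_option autoImplicit false

namespace Pool.Agent.H662.FR

namespace XMQ

/-- uniqueness of the coordinates -/
theorem uniq {K : Subfield ℝ} {r a : ℝ} (hr : r ^ 2 = a) (hn : ∀ b ∈ K, b ^ 2 ≠ a) {u v : ℝ}
    (hu : u ∈ K) (hv : v ∈ K) (h : u + v * r = 0) : u = 0 ∧ v = 0 := by
  have hv0 : v = 0 := by
    by_contra hv0
    apply hn (-u / v) (K.div_mem (K.neg_mem hu) hv)
    have h1 : r = -u / v := by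
      rw [eq_div_iff hv0]
      linarith
    rw [← h1, hr]
  refine ⟨?_, hv0⟩
  rw [hv0, zero_mul, add_zero] at h
  exact h

/-- the quadratic extension -/
def ext (K : Subfield ℝ) (r a : ℝ) (ha : a ∈ K) (hr : r ^ 2 = a) (hn : ∀ b ∈ K, b ^ 2 ≠ a) :
    Subfield ℝ where
  carrier := {x | ∃ u ∈ K, ∃ v ∈ K, x = u + v * r}
  mul_mem' := by
    rintro x y ⟨u, hu, v, hv, rfl⟩ ⟨u', hu', v', hv', rfl⟩
    refine ⟨u * u' + v * v' * a, K.add_mem (K.mul_mem hu hu') (K.mul_mem (K.mul_mem hv hv') ha),
      u * v' + v * u', K.add_mem (K.mul_mem hu hv') (K.mul_mem hv hu'), ?_⟩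
    rw [← hr]
    ring
  one_mem' := ⟨1, K.one_mem, 0, K.zero_mem, by ring⟩
  add_mem' := by
    rintro x y ⟨u, hu, v, hv, rfl⟩ ⟨u', hu', v', hv', rfl⟩
    exact ⟨u + u', K.add_mem hu hu', v + v', K.add_mem hv hv', by ring⟩
  zero_mem' := ⟨0, K.zero_mem, 0, K.zero_mem, by ring⟩
  neg_mem' := by
    rintro x ⟨u, hu, v, hv, rfl⟩
    exact ⟨-u, K.neg_mem hu, -v, K.neg_mem hv, by ring⟩
  inv_mem' := by
    rintro x ⟨u, hu, v, hv, rfl⟩
    by_cases hv0 : v = 0
    · exact ⟨u⁻¹, K.inv_mem hu, 0, K.zero_mem, by rw [hv0]; simp⟩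
    · have hN : u ^ 2 - v ^ 2 * a ≠ 0 := by
        intro h0
        apply hn (u / v) (K.div_mem hu hv)
        rw [div_pow, div_eq_iff (pow_ne_zero 2 hv0)]
        linarith
      have hNK : u ^ 2 - v ^ 2 * a ∈ K := K.sub_mem (K.pow_mem hu 2) (K.mul_mem (K.pow_mem hv 2) ha)
      refine ⟨u / (u ^ 2 - v ^ 2 * a), K.div_mem hu hNK, -v / (u ^ 2 - v ^ 2 * a),
        K.div_mem (K.neg_mem hv) hNK, ?_⟩
      apply inv_eq_of_mul_eq_one_right
      have h1 : (u + v * r) * (u / (u ^ 2 - v ^ 2 * a) + -v / (u ^ 2 - v ^ 2 * a) * r) =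
          (u ^ 2 - v ^ 2 * r ^ 2) / (u ^ 2 - v ^ 2 * a) := by
        ring
      rw [h1, hr, div_self hN]

end XMQ

open XMQ in
theorem t_MQ : S_MQ := by
  intro K ρ a E
  induction E using Finset.induction_on generalizing K with
  | empty =>
    intro _ _ _ c _ h S hS
    rw [Finset.powerset_empty, Finset.sum_singleton, Finset.prod_empty, mul_one] at h
    rw [Finset.subset_empty.1 hS]
    exact h
  | insert i E' hi ih =>
    intro haK hρ hsq c hc h
    have hai : a i ∈ K := haK i (Finset.mem_insert_self i E')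
    have hri : ρ i ^ 2 = a i := hρ i (Finset.mem_insert_self i E')
    have hn : ∀ b ∈ K, b ^ 2 ≠ a i := by
      intro b hb h1
      apply hsq {i} (Finset.singleton_subset_iff.2 (Finset.mem_insert_self i E')) ⟨i, Finset.mem_singleton_self i⟩ b hb
      rw [Finset.prod_singleton]
      exact h1
    have hin : ∀ x ∈ K, x ∈ ext K (ρ i) (a i) hai hri hn := fun x hx => ⟨x, hx, 0, K.zero_mem, by ring⟩
    have hprod : ∀ S ⊆ E', ∏ j ∈ S, a j ∈ K := fun S hS =>
      prod_mem fun j hj => haK j (Finset.mem_insert_of_mem (hS hj))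
    have key := ih (ext K (ρ i) (a i) hai hri hn)
      (fun j hj => hin _ (haK j (Finset.mem_insert_of_mem hj)))
      (fun j hj => hρ j (Finset.mem_insert_of_mem hj))
      (by
        rintro S hS hSne b ⟨u, hu, v, hv, rfl⟩ h1
        have h2 : (u ^ 2 + v ^ 2 * a i - ∏ j ∈ S, a j) + (2 * u * v) * ρ i = 0 := by
          rw [← h1, ← hri]
          ring
        have h2K : (2 : ℝ) ∈ K := by
          have := K.add_mem K.one_mem K.one_mem
          rwa [one_add_one_eq_two] at this
        obtain ⟨h3, h4⟩ := uniq hri hn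
          (K.sub_mem (K.add_mem (K.pow_mem hu 2) (K.mul_mem (K.pow_mem hv 2) hai)) (hprod S hS))
          (K.mul_mem (K.mul_mem h2K hu) hv) h2
        rcases mul_eq_zero.1 h4 with h5 | h5
        · have hu0 : u = 0 := by linarith
          have hiS : i ∉ S := fun hiS => hi (hS hiS)
          apply hsq (insert i S) (Finset.insert_subset_insert i hS) ⟨i, Finset.mem_insert_self i S⟩
            (v * a i) (K.mul_mem hv hai)
          rw [Finset.prod_insert hiS]
          rw [hu0] at h3
          have h6 : ∏ j ∈ S, a j = v ^ 2 * a i := by linarith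
          rw [h6]
          ring
        · apply hsq S (hS.trans (Finset.subset_insert i E')) hSne u hu
          rw [h5] at h3
          linarith)
      (fun S => c S + c (insert i S) * ρ i) (fun S => ⟨c S, hc S, c (insert i S), hc _, rfl⟩)
      (by
        rw [Finset.sum_powerset_insert hi] at h
        rw [← h, ← Finset.sum_add_distrib]
        refine Finset.sum_congr rfl fun S hS => ?_
        have hiS : i ∉ S := fun hiS => hi (Finset.mem_powerset.1 hS hiS)
        rw [Finset.prod_insert hiS]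
        ring)
    intro S hS
    by_cases hiS : i ∈ S
    · have h7 : S.erase i ⊆ E' := by
        intro j hj
        rcases Finset.mem_insert.1 (hS (Finset.mem_of_mem_erase hj)) with h8 | h8
        · exact absurd h8 (Finset.ne_of_mem_erase hj)
        · exact h8
      have h9 := (uniq hri hn (hc _) (hc _) (key (S.erase i) h7)).2
      rwa [Finset.insert_erase hiS] at h9
    · have h7 : S ⊆ E' := by
        intro j hj
        rcases Finset.mem_insert.1 (hS hj) with h8 | h8
        · exact absurd (h8 ▸ hj) hiS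
        · exact h8
      exact (uniq hri hn (hc _) (hc _) (key S h7)).1

end Pool.Agent.H662.FR
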