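import Pool.Agent.H662.FR.Stm

set_option autoImplicit false

namespace Pool.Agent.H662.FR

open Polynomial

namespace XNSQ

lemma gv_map {R S : Type} [CommRing R] [CommRing S] (f : R →+* S) (k : ℕ) (x : R) :
    f (gv k x) = gv k (f x) := by
  induction k with
  | zero => rfl
  | succ k ih =>
    show f (gv k x ^ 2 - 6) = gv k (f x) ^ 2 - 6
    rw [map_sub, map_pow, ih, map_ofNat]

lemma md (R : Type) [CommRing R] [Nontrivial R] (k : ℕ) :
    (gv k (X : R[X])).Monic ∧ (gv k (X : R[X])).natDegree = 2 ^ k := by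
  induction k with
  | zero =>
    refine ⟨monic_X, ?_⟩
    show (X : R[X]).natDegree = 2 ^ 0
    rw [natDegree_X, pow_zero]
  | succ k ih =>
    obtain ⟨h1, h2⟩ := ih
    have h3 : gv (k + 1) (X : R[X]) = gv k X ^ 2 - Polynomial.C 6 := by
      show gv k X ^ 2 - 6 = gv k X ^ 2 - Polynomial.C 6
      rw [map_ofNat]
    have h4 : (gv k (X : R[X]) ^ 2).Monic := h1.pow 2
    have h5 : (gv k (X : R[X]) ^ 2).natDegree = 2 ^ (k + 1) := by
      rw [h1.natDegree_pow, h2, pow_succ, mul_comm]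
    rw [h3]
    refine ⟨h4.sub_of_left ?_, by rw [natDegree_sub_C, h5]⟩
    refine lt_of_le_of_lt degree_C_le ?_
    rw [← natDegree_pos_iff_degree_pos, h5]
    positivity

lemma mod2 (k : ℕ) : gv k (X : (ZMod 2)[X]) = X ^ (2 ^ k) := by
  induction k with
  | zero =>
    show (X : (ZMod 2)[X]) = X ^ (2 ^ 0)
    rw [pow_zero, pow_one]
  | succ k ih =>
    show gv k (X : (ZMod 2)[X]) ^ 2 - 6 = X ^ (2 ^ (k + 1))
    have h : (6 : (ZMod 2)[X]) = 0 := by
      have h1 : (Polynomial.C (6 : ZMod 2) : (ZMod 2)[X]) = 6 := map_ofNat Polynomial.C 6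
      rw [← h1, show (6 : ZMod 2) = 0 from rfl, C_0]
    rw [ih, h, sub_zero, ← pow_mul, pow_succ]

lemma at0 (k : ℕ) : ∃ b : ℤ, gv (k + 1) (0 : ℤ) = 4 * b + 2 := by
  induction k with
  | zero => exact ⟨-2, by show (0 : ℤ) ^ 2 - 6 = 4 * (-2) + 2; norm_num⟩
  | succ k ih =>
    obtain ⟨b, hb⟩ := ih
    refine ⟨4 * b ^ 2 + 4 * b - 1, ?_⟩
    show gv (k + 1) (0 : ℤ) ^ 2 - 6 = _
    rw [hb]
    ring

lemma irrZ (k : ℕ) : Irreducible (gv (k + 1) (X : ℤ[X])) := by
  obtain ⟨h1, h2⟩ := md ℤ (k + 1)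
  have hP : (Ideal.span {(2 : ℤ)}).IsPrime :=
    (Ideal.span_singleton_prime (by norm_num)).2 Int.prime_two
  refine irreducible_of_eisenstein_criterion hP ?_ ?_ ?_ ?_ h1.isPrimitive
  · rw [h1.leadingCoeff, Ideal.mem_span_singleton]
    intro h
    omega
  · intro m hm
    rw [degree_eq_natDegree h1.ne_zero, h2] at hm
    have hm' : m < 2 ^ (k + 1) := by exact_mod_cast hm
    rw [Ideal.mem_span_singleton]
    have h3 : (mapRingHom (Int.castRingHom (ZMod 2))) (gv (k + 1) (X : ℤ[X])) =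
        X ^ (2 ^ (k + 1)) := by
      rw [gv_map, coe_mapRingHom, map_X, mod2]
    have h4 : (Int.castRingHom (ZMod 2)) ((gv (k + 1) (X : ℤ[X])).coeff m) = 0 := by
      rw [← coeff_map, ← coe_mapRingHom, h3, coeff_X_pow, if_neg hm'.ne]
    exact (ZMod.intCast_zmod_eq_zero_iff_dvd _ 2).1 h4
  · rw [← natDegree_pos_iff_degree_pos, h2]
    positivity
  · rw [Ideal.span_singleton_pow, Ideal.mem_span_singleton, coeff_zero_eq_eval_zero]
    have h3 : eval 0 (gv (k + 1) (X : ℤ[X])) = gv (k + 1) (0 : ℤ) := by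
      have := gv_map (evalRingHom (0 : ℤ)) (k + 1) X
      rw [coe_evalRingHom, eval_X] at this
      exact this
    rw [h3]
    obtain ⟨b, hb⟩ := at0 k
    rw [hb]
    rintro ⟨c, hc⟩
    omega

lemma irr (k : ℕ) : Irreducible (gv k (X : ℚ[X])) := by
  cases k with
  | zero => exact irreducible_X
  | succ k =>
    have h1 := (Polynomial.Monic.irreducible_iff_irreducible_map_fraction_map (K := ℚ)
      (md ℤ (k + 1)).1).1 (irrZ k)
    have h2 : (gv (k + 1) (X : ℤ[X])).map (algebraMap ℤ ℚ) = gv (k + 1) (X : ℚ[X]) := by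
      have := gv_map (mapRingHom (algebraMap ℤ ℚ)) (k + 1) (X : ℤ[X])
      rw [coe_mapRingHom, map_X] at this
      exact this
    rw [h2] at h1
    exact h1

lemma dvd_iff {j k : ℕ} (h : gv j (X : ℚ[X]) ∣ gv k X) : j = k := by
  have h1 := (irr j).associated_of_dvd (irr k) h
  have h2 := eq_of_monic_of_associated (md ℚ j).1 (md ℚ k).1 h1
  have h3 := (md ℚ j).2
  rw [h2, (md ℚ k).2] at h3
  exact (Nat.pow_right_injective le_rfl h3).symm

lemma sg_unit (b : Bool) : IsUnit ((sg b : ℤ) : ℚ[X]) := by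
  cases b
  · show IsUnit (((-1 : ℤ)) : ℚ[X])
    rw [Int.cast_neg, Int.cast_one]
    exact isUnit_one.neg
  · show IsUnit (((1 : ℤ)) : ℚ[X])
    rw [Int.cast_one]
    exact isUnit_one

end XNSQ

open XNSQ in
theorem t_NSQ : S_NSQ := by
  intro n s hn S hS p q hp h
  obtain ⟨i₀, hi₀⟩ := hS
  have hpi : Prime (gv (n i₀) (X : ℚ[X])) := (irr (n i₀)).prime
  have hne : ∀ i, ((sg (s i) : ℤ) : ℚ[X]) * gv (n i) X ≠ 0 := fun i =>
    mul_ne_zero (sg_unit _).ne_zero (md ℚ (n i)).1.ne_zero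
  have hprod : ∏ i ∈ S, (((sg (s i) : ℤ) : ℚ[X]) * gv (n i) X) ≠ 0 :=
    Finset.prod_ne_zero_iff.2 fun i _ => hne i
  have hq : q ≠ 0 := by
    rintro rfl
    rw [zero_pow two_ne_zero] at h
    exact mul_ne_zero (pow_ne_zero 2 hp) hprod h
  have fp : FiniteMultiplicity (gv (n i₀) (X : ℚ[X])) p := FiniteMultiplicity.of_not_isUnit hpi.not_isUnit hp
  have fq : FiniteMultiplicity (gv (n i₀) (X : ℚ[X])) q := FiniteMultiplicity.of_not_isUnit hpi.not_isUnit hq
  have fs : FiniteMultiplicity (gv (n i₀) (X : ℚ[X])) (gv (n i₀) (X : ℚ[X])) :=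
    FiniteMultiplicity.of_not_isUnit hpi.not_isUnit hpi.ne_zero
  have h1 : ∀ i ∈ S, emultiplicity (gv (n i₀) (X : ℚ[X])) (((sg (s i) : ℤ) : ℚ[X]) * gv (n i) X) =
      if i = i₀ then 1 else 0 := by
    intro i _
    rw [emultiplicity_mul hpi]
    have h2 : emultiplicity (gv (n i₀) (X : ℚ[X])) ((sg (s i) : ℤ) : ℚ[X]) = 0 :=
      emultiplicity_eq_zero.2 fun h3 => hpi.not_isUnit (isUnit_of_dvd_unit h3 (sg_unit _))
    rw [h2, zero_add]
    split_ifs with hi
    · rw [hi]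
      exact fs.emultiplicity_self
    · exact emultiplicity_eq_zero.2 fun h3 => hi (hn (dvd_iff h3)).symm
  have h2 := congrArg (emultiplicity (gv (n i₀) (X : ℚ[X]))) h
  rw [emultiplicity_mul hpi, emultiplicity_pow hpi, emultiplicity_pow hpi,
    Finset.emultiplicity_prod hpi, Finset.sum_congr rfl h1, Finset.sum_ite_eq' S i₀, if_pos hi₀,
    fp.emultiplicity_eq_multiplicity, fq.emultiplicity_eq_multiplicity] at h2
  have h3 : 2 * multiplicity (gv (n i₀) (X : ℚ[X])) p + 1 =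
      2 * multiplicity (gv (n i₀) (X : ℚ[X])) q := by exact_mod_cast h2
  omega

end Pool.Agent.H662.FR
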