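import Pool.Agent.H662.FR.Stm

/-!
# OKP: the condition on the index lists is primitive recursive (helper196)
-/

set_option autoImplicit false

namespace Pool.Agent.H662.FR

namespace XOKP

theorem nodup_iff (l : List ℕ) : l.Nodup ↔ ∀ i < l.length, l.idxOf (l.getD i 0) = i := by
  constructor
  · intro h i hi
    rw [List.getD_eq_getElem _ _ hi]
    exact h.idxOf_getElem i hi
  · intro h
    rw [List.nodup_iff_injective_get]
    rintro ⟨i, hi⟩ ⟨j, hj⟩ hij
    have h1 := h i hi
    have h2 := h j hj
    rw [List.getD_eq_getElem _ _ hi] at h1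
    rw [List.getD_eq_getElem _ _ hj] at h2
    have h3 : l[i] = l[j] := hij
    rw [h3, h2] at h1
    exact Fin.ext h1.symm

theorem nodup_pr : PrimrecPred (fun l : List ℕ => l.Nodup) := by
  have hR : PrimrecRel (fun (i : ℕ) (l : List ℕ) => l.idxOf (l.getD i 0) = i) := by
    refine PrimrecRel.comp Primrec.eq ?_ Primrec.fst
    exact Primrec.list_idxOf.comp ((Primrec.list_getD 0).comp Primrec.snd Primrec.fst) Primrec.snd
  have h := (hR.forall_mem_list).comp (Primrec.list_range.comp Primrec.list_length) Primrec.id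
  refine PrimrecPred.of_eq h (fun l => ?_)
  rw [nodup_iff]
  simp only [List.mem_range, id_eq]

end XOKP

theorem t_OKP : S_OKP := by
  have h : PrimrecPred (fun e : ℤ × ℕ × List ℕ => e.2.2.Nodup) :=
    XOKP.nodup_pr.comp (Primrec.snd.comp Primrec.snd)
  exact h.forall_mem_list

end Pool.Agent.H662.FR
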