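import Pool.Agent.H662.FR.Stm

set_option autoImplicit false

namespace Pool.Agent.H662.FR

namespace XORD

theorem gv_coe (F : Subfield ℝ) (t : F) (k : ℕ) : ((gv k t : F) : ℝ) = gv k (t : ℝ) := by
  induction k with
  | zero => rfl
  | succ k ih =>
    show (((gv k t) ^ 2 - 6 : F) : ℝ) = gv k (t : ℝ) ^ 2 - 6
    rw [← ih]
    push_cast
    rfl

theorem comp_gv {F : Type} [Field F] (e : ℕ ≃ F) (he : Pres F e) (t : F) :
    Computable (fun k : ℕ => e.symm (gv k t)) := by
  obtain ⟨hadd, hmul, -, -⟩ := he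
  have hstep : Computable (fun x : ℕ => e.symm (e (e.symm (e x * e x)) + e (e.symm (-6 : F)))) := by
    have h1 : Computable (fun x : ℕ => e.symm (e x * e x)) := hmul.comp Computable.id Computable.id
    exact hadd.comp h1 (Computable.const (e.symm (-6 : F)))
  have hrec : Computable (fun k : ℕ => Nat.rec (motive := fun _ => ℕ) (e.symm t)
      (fun _ x => e.symm (e (e.symm (e x * e x)) + e (e.symm (-6 : F)))) k) := by
    refine Computable.nat_rec (f := fun k : ℕ => k) (g := fun _ => e.symm t)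
      (h := fun _ p => e.symm (e (e.symm (e p.2 * e p.2)) + e (e.symm (-6 : F))))
      Computable.id (Computable.const _) ?_
    exact hstep.comp (Computable.snd.comp Computable.snd)
  refine hrec.of_eq ?_
  intro k
  induction k with
  | zero => rfl
  | succ k ih =>
    show e.symm (e (e.symm (e _ * e _)) + e (e.symm (-6 : F))) = e.symm (gv k t ^ 2 - 6)
    rw [ih]
    simp only [Equiv.apply_symm_apply]
    congr 1
    ring

end XORD

open XORD in
theorem t_ORD : S_ORD := by
  intro n s hd τ ρ hρ hρ0 e he P hP h0 hadd hmul htot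
  have hτm : τ ∈ KF τ ρ := Subfield.subset_closure (Or.inl rfl)
  have hρm : ∀ i, ρ i ∈ KF τ ρ := fun i => Subfield.subset_closure (Or.inr ⟨i, rfl⟩)
  let t : KF τ ρ := ⟨τ, hτm⟩
  obtain ⟨hdec, hcomp⟩ := hP
  have hh : Computable (fun k : ℕ => decide (e (e.symm (gv k t)) ∈ P)) :=
    hcomp.comp (comp_gv e he t)
  obtain ⟨i, hi⟩ := hd.ins _ hh
  rw [ne_eq] at hi
  have hsq : (⟨ρ i, hρm i⟩ : KF τ ρ) * ⟨ρ i, hρm i⟩ ∈ P := by
    have hne : (⟨ρ i, hρm i⟩ : KF τ ρ) ≠ 0 := by
      intro h
      exact hρ0 i (congrArg Subtype.val h)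
    rcases htot _ hne with h | h
    · exact hmul _ _ h h
    · have := hmul _ _ h h
      rwa [neg_mul_neg] at this
  have heq : (⟨ρ i, hρm i⟩ : KF τ ρ) * ⟨ρ i, hρm i⟩ = (sg (s i) : KF τ ρ) * gv (n i) t := by
    apply Subtype.ext
    have := hρ i
    rw [pow_two] at this
    show ρ i * ρ i = _
    rw [this]
    push_cast
    rw [gv_coe]
  rw [heq] at hsq
  apply hi
  have hes : e (e.symm (gv (n i) t)) = gv (n i) t := Equiv.apply_symm_apply _ _
  cases hs : s i with
  | true =>
    rw [hs] at hsq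
    simp only [sg, if_true, Int.cast_one, one_mul] at hsq
    apply decide_eq_true
    show e (e.symm (gv (n i) t)) ∈ P
    rw [hes]
    exact hsq
  | false =>
    rw [hs] at hsq
    apply decide_eq_false
    intro hx
    have hx' : gv (n i) t ∈ P := by
      have hx2 : e (e.symm (gv (n i) t)) ∈ P := hx
      rwa [hes] at hx2
    apply h0
    have := hadd _ _ hx' hsq
    have h2 : gv (n i) t + (sg false : KF τ ρ) * gv (n i) t = 0 := by
      simp [sg]
    rwa [h2] at this

end Pool.Agent.H662.FR
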