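import Pool.Agent.H662.FR.Stm

/-!
# PRE: computable presentation from codes with decidable equality (helper981)
-/

set_option autoImplicit false

namespace Pool.Agent.H662.FR

namespace XPRE

theorem comp_find {α : Type} [Primcodable α] (p : α → ℕ → Bool) (hp : Computable₂ p)
    (h : ∀ a, ∃ n, p a n = true) :
    ∃ f : α → ℕ, Computable f ∧ (∀ a, p a (f a) = true) ∧ ∀ a n, p a n = true → f a ≤ n := by
  refine ⟨fun a => Nat.find (h a), ?_, fun a => Nat.find_spec (h a),
    fun a n hn => Nat.find_min' (h a) hn⟩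
  have h1 : Partrec (fun a => Nat.rfind (fun n => Part.some (p a n))) :=
    Partrec.rfind hp.partrec₂
  refine h1.of_eq ?_
  intro a
  change _ = Part.some (Nat.find (h a))
  rw [Part.eq_some_iff]
  refine Nat.mem_rfind.2 ⟨?_, ?_⟩
  · refine Part.mem_some_iff.2 ?_
    exact (Nat.find_spec (h a)).symm
  · intro m hm
    refine Part.mem_some_iff.2 ?_
    have := Nat.find_min (h a) hm
    exact (Bool.eq_false_iff.2 this).symm

/-- equality of natural numbers is computable -/
theorem comp_eq {α : Type} [Primcodable α] {f g : α → ℕ} (hf : Computable f)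
    (hg : Computable g) : Computable (fun a => decide (f a = g a)) := by
  have h1 : Primrec (fun x : ℕ × ℕ => decide (x.1 = x.2)) := Primrec.eq.decide
  exact h1.to_comp.comp (hf.pair hg)

theorem comp_le {α : Type} [Primcodable α] {f g : α → ℕ} (hf : Computable f)
    (hg : Computable g) : Computable (fun a => decide (f a ≤ g a)) := by
  have h1 : Primrec (fun x : ℕ × ℕ => decide (x.1 ≤ x.2)) := Primrec.nat_le.decide
  exact h1.to_comp.comp (hf.pair hg)

theorem comp_and {α : Type} [Primcodable α] {f g : α → Bool} (hf : Computable f)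
    (hg : Computable g) : Computable (fun a => f a && g a) :=
  Primrec.and.to_comp.comp hf hg

end XPRE

open XPRE in
theorem t_PRE : S_PRE := by
  intro F _ _ ev hev hD hadd hmul hneg hinv
  obtain ⟨d, hd, hdd⟩ : ∃ d : ℕ × ℕ → Bool, Computable d ∧
      ∀ x y, d (x, y) = true ↔ ev x = ev y := by
    obtain ⟨inst, hD⟩ := hD
    exact ⟨fun x => @decide (ev x.1 = ev x.2) (inst x), hD, fun x y => by simp⟩
  -- representatives
  obtain ⟨rep, hrep, hr1, hr2⟩ := comp_find (fun n k : ℕ => d (k, n))
    (hd.comp (Computable.snd.pair Computable.fst)) (fun n => ⟨n, (hdd n n).2 rfl⟩)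
  have hrev : ∀ n, ev (rep n) = ev n := fun n => (hdd _ _).1 (hr1 n)
  have hrle : ∀ n k, ev k = ev n → rep n ≤ k := fun n k h => hr2 n k ((hdd _ _).2 h)
  have hreq : ∀ n k, ev n = ev k → rep n = rep k := by
    intro n k h
    apply le_antisymm
    · exact hrle n _ (by rw [hrev, h])
    · exact hrle k _ (by rw [hrev, h])
  have hidem : ∀ n, rep (rep n) = rep n := fun n => hreq _ _ (hrev n)
  have hinf : ∀ n : ℕ, ∃ m, (decide (n ≤ m) && decide (rep m = m)) = true := by
    intro n
    by_contra hcon
    push Not at hcon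
    have h1 : (Set.univ : Set F) ⊆ ev '' (Set.Iio n) := by
      intro x _
      obtain ⟨k, rfl⟩ := hev x
      refine ⟨rep k, ?_, hrev k⟩
      have h2 := hcon (rep k)
      rw [Set.mem_Iio]
      by_contra h3
      apply h2
      rw [Bool.and_eq_true, decide_eq_true_eq, decide_eq_true_eq]
      exact ⟨not_lt.1 h3, hidem k⟩
    exact Set.infinite_univ (((Set.finite_Iio n).image ev).subset h1)
  -- the next representative
  obtain ⟨nx, hnx, hn1, hn2⟩ := comp_find (fun n m : ℕ => decide (n ≤ m) && decide (rep m = m))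
    (comp_and (comp_le Computable.fst Computable.snd)
      (comp_eq (hrep.comp Computable.snd) Computable.snd)) hinf
  have hn1' : ∀ n, n ≤ nx n ∧ rep (nx n) = nx n := by
    intro n
    have := hn1 n
    rwa [Bool.and_eq_true, decide_eq_true_eq, decide_eq_true_eq] at this
  have hn2' : ∀ n m, n ≤ m → rep m = m → nx n ≤ m := by
    intro n m h1 h2
    apply hn2
    rw [Bool.and_eq_true, decide_eq_true_eq, decide_eq_true_eq]
    exact ⟨h1, h2⟩
  -- the enumeration of the representatives
  obtain ⟨r, hr0, hrs, hrc⟩ : ∃ r : ℕ → ℕ, r 0 = nx 0 ∧ (∀ k, r (k + 1) = nx (r k + 1)) ∧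
      Computable r := by
    refine ⟨fun k => Nat.rec (nx 0) (fun _ x => nx (x + 1)) k, rfl, fun _ => rfl, ?_⟩
    have h1 : Computable₂ (fun (_ : ℕ) (x : ℕ × ℕ) => nx (x.2 + 1)) :=
      hnx.comp (Computable.succ.comp (Computable.snd.comp Computable.snd))
    exact Computable.nat_rec Computable.id (Computable.const (nx 0)) h1
  have hrr : ∀ k, rep (r k) = r k := by
    intro k
    cases k with
    | zero => rw [hr0]; exact (hn1' 0).2
    | succ k => rw [hrs]; exact (hn1' _).2
  have hmono : StrictMono r := by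
    apply strictMono_nat_of_lt_succ
    intro k
    rw [hrs]
    have := (hn1' (r k + 1)).1
    omega
  have hsurj : ∀ n, rep n = n → ∃ k, r k = n := by
    intro n hn
    have hex : ∃ k, n ≤ r k := ⟨n, hmono.id_le n⟩
    refine ⟨Nat.find hex, le_antisymm ?_ (Nat.find_spec hex)⟩
    rcases h : Nat.find hex with _ | k
    · rw [hr0]
      exact hn2' 0 n (Nat.zero_le _) hn
    · have h1 := Nat.find_min hex (m := k) (by omega)
      rw [hrs]
      exact hn2' _ n (by omega) hn
  -- the index of the class
  obtain ⟨c, hc, hc1, -⟩ := comp_find (fun n k : ℕ => decide (r k = rep n))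
    (comp_eq (hrc.comp Computable.snd) (hrep.comp Computable.fst))
    (fun n => by
      obtain ⟨k, hk⟩ := hsurj (rep n) (hidem n)
      exact ⟨k, decide_eq_true hk⟩)
  have hc1' : ∀ n, ev (r (c n)) = ev n := by
    intro n
    have := hc1 n
    rw [decide_eq_true_eq] at this
    rw [this, hrev]
  have hbij : Function.Bijective (fun k => ev (r k)) := by
    constructor
    · intro k k' h
      have h1 := hreq _ _ h
      rw [hrr, hrr] at h1
      exact hmono.injective h1
    · intro x
      obtain ⟨n, rfl⟩ := hev x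
      exact ⟨c n, hc1' n⟩
  let e : ℕ ≃ F := Equiv.ofBijective _ hbij
  have he : ∀ k, e k = ev (r k) := fun _ => rfl
  have hes : ∀ n, e.symm (ev n) = c n := by
    intro n
    rw [Equiv.symm_apply_eq, he, hc1']
  obtain ⟨fa, hfa, hfa'⟩ := hadd
  obtain ⟨fm, hfm, hfm'⟩ := hmul
  obtain ⟨fn, hfn, hfn'⟩ := hneg
  obtain ⟨fi, hfi, hfi'⟩ := hinv
  refine ⟨e, ?_, ?_, ?_, ?_⟩
  · have h1 : Computable (fun x : ℕ × ℕ => c (fa (r x.1, r x.2))) :=
      hc.comp (hfa.comp ((hrc.comp Computable.fst).pair (hrc.comp Computable.snd)))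
    exact h1.of_eq fun x => by
      rw [← hes, hfa']
      rfl
  · have h1 : Computable (fun x : ℕ × ℕ => c (fm (r x.1, r x.2))) :=
      hc.comp (hfm.comp ((hrc.comp Computable.fst).pair (hrc.comp Computable.snd)))
    exact h1.of_eq fun x => by
      rw [← hes, hfm']
      rfl
  · have h1 : Computable (fun x : ℕ => c (fn (r x))) := hc.comp (hfn.comp hrc)
    exact h1.of_eq fun x => by
      rw [← hes, hfn']
      rfl
  · have h1 : Computable (fun x : ℕ => c (fi (r x))) := hc.comp (hfi.comp hrc)
    exact h1.of_eq fun x => by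
      rw [← hes, hfi']
      rfl

end Pool.Agent.H662.FR
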