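import Pool.Agent.H662.FR.Stm

/-!
# FR QUO: elements of the field are quotients of values of codes (helper906)
-/

set_option autoImplicit false

namespace Pool.Agent.H662.FR.XQUO

theorem val_mem (τ : ℝ) (ρ : ℕ → ℝ) (L : C) : val τ ρ L ∈ KF τ ρ := by
  have ht : τ ∈ KF τ ρ := Subfield.subset_closure (Or.inl rfl)
  have hr : ∀ i, ρ i ∈ KF τ ρ := fun i => Subfield.subset_closure (Or.inr ⟨i, rfl⟩)
  unfold val
  refine list_sum_mem fun x hx => ?_
  obtain ⟨e, -, rfl⟩ := List.mem_map.1 hx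
  refine mul_mem (mul_mem (intCast_mem _ _) (pow_mem ht _)) (list_prod_mem fun y hy => ?_)
  obtain ⟨i, -, rfl⟩ := List.mem_map.1 hy
  exact hr i

/-- the code of a monomial with coefficient one -/
def mon (k : ℕ) (l : List ℕ) : C := [((1 : ℤ), k, l)]

theorem mon_ok {k : ℕ} {l : List ℕ} (h : l.Nodup) : Ok (mon k l) := by
  intro e he
  unfold mon at he
  rw [List.mem_singleton] at he
  rw [he]
  exact h

theorem mon_val (τ : ℝ) (ρ : ℕ → ℝ) (k : ℕ) (l : List ℕ) :
    val τ ρ (mon k l) = τ ^ k * (l.map ρ).prod := by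
  simp [val, mon]

end Pool.Agent.H662.FR.XQUO

namespace Pool.Agent.H662.FR

open XQUO

theorem t_QUO (h : S_RNG) : S_QUO := by
  intro n s hn hs τ ρ hρ x
  obtain ⟨ad, mu, ng, -, -, -, -, hok, hval⟩ := h n s hn hs
  have hv := hval τ ρ hρ
  constructor
  · intro hx
    have ok1 : Ok (mon 0 []) := mon_ok List.nodup_nil
    have v1 : val τ ρ (mon 0 []) = 1 := by rw [mon_val]; simp
    let S : Subfield ℝ :=
      { carrier := {x | ∃ L L' : C, Ok L ∧ Ok L' ∧ x = val τ ρ L / val τ ρ L'}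
        mul_mem' := by
          rintro x y ⟨a, b, ha, hb, rfl⟩ ⟨c, d, hc, hd, rfl⟩
          refine ⟨mu (a, c), mu (b, d), (hok a c ha hc).2.1, (hok b d hb hd).2.1, ?_⟩
          rw [(hv a c ha hc).2.1, (hv b d hb hd).2.1, div_mul_div_comm]
        one_mem' := ⟨mon 0 [], mon 0 [], ok1, ok1, by rw [v1, div_one]⟩
        add_mem' := by
          rintro x y ⟨a, b, ha, hb, rfl⟩ ⟨c, d, hc, hd, rfl⟩
          by_cases hb0 : val τ ρ b = 0
          · exact ⟨c, d, hc, hd, by rw [hb0, div_zero, zero_add]⟩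
          by_cases hd0 : val τ ρ d = 0
          · exact ⟨a, b, ha, hb, by rw [hd0, div_zero, add_zero]⟩
          have h1 := hok a d ha hd
          have h2 := hok b c hb hc
          refine ⟨ad (mu (a, d), mu (b, c)), mu (b, d), (hok _ _ h1.2.1 h2.2.1).1,
            (hok b d hb hd).2.1, ?_⟩
          rw [(hv _ _ h1.2.1 h2.2.1).1, (hv a d ha hd).2.1, (hv b c hb hc).2.1,
            (hv b d hb hd).2.1, div_add_div _ _ hb0 hd0]
        zero_mem' := ⟨[], mon 0 [], by intro e he; simp at he, ok1, by simp [val]⟩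
        neg_mem' := by
          rintro x ⟨a, b, ha, hb, rfl⟩
          refine ⟨ng a, b, (hok a b ha hb).2.2, hb, ?_⟩
          rw [(hv a b ha hb).2.2, neg_div]
        inv_mem' := by
          rintro x ⟨a, b, ha, hb, rfl⟩
          exact ⟨b, a, hb, ha, inv_div _ _⟩ }
    have hle : KF τ ρ ≤ S := by
      unfold KF
      rw [Subfield.closure_le]
      rintro y (rfl | ⟨i, rfl⟩)
      · exact ⟨mon 1 [], mon 0 [], mon_ok List.nodup_nil, ok1, by rw [v1, mon_val]; simp⟩
      · exact ⟨mon 0 [i], mon 0 [], mon_ok (List.nodup_singleton i), ok1, by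
          rw [v1, mon_val]; simp⟩
    exact hle hx
  · rintro ⟨L, L', -, -, rfl⟩
    exact div_mem (val_mem τ ρ L) (val_mem τ ρ L')

end Pool.Agent.H662.FR
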