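import Pool.Agent.H662.FR.Stm

/-!
# RNG: primitive recursive ring operations on codes (helper372; the lemmas on `ℤ` are by helper241)
-/

set_option autoImplicit false

namespace Pool.Agent.H662.FR.XRNG

open Pool.Agent.H662.FR
open Encodable

/-! ### integers -/

theorem encode_int_ofNat (n : ℕ) : encode (n : ℤ) = 2 * n := rfl
theorem encode_int_negSucc (n : ℕ) : encode (Int.negSucc n) = 2 * n + 1 := rfl

theorem prim_toNat : Primrec Int.toNat := by
  have h : Primrec (fun n : ℕ => if n % 2 = 0 then n / 2 else 0) := by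
    refine Primrec.ite ?_ ?_ (Primrec.const 0)
    · exact Primrec.eq.comp (Primrec.nat_mod.comp Primrec.id (Primrec.const 2)) (Primrec.const 0)
    · exact Primrec.nat_div.comp Primrec.id (Primrec.const 2)
  refine (h.comp Primrec.encode).of_eq fun z => ?_
  cases z with
  | ofNat n =>
    show (if (encode (n : ℤ)) % 2 = 0 then (encode (n : ℤ)) / 2 else 0) = n
    rw [encode_int_ofNat, if_pos (by omega)]; omega
  | negSucc n =>
    show (if (encode (Int.negSucc n)) % 2 = 0 then (encode (Int.negSucc n)) / 2 else 0) = 0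
    rw [encode_int_negSucc, if_neg (by omega)]

theorem prim_toNat_neg : Primrec (fun z : ℤ => (-z).toNat) := by
  have h : Primrec (fun n : ℕ => if n % 2 = 0 then 0 else n / 2 + 1) := by
    refine Primrec.ite ?_ (Primrec.const 0) ?_
    · exact Primrec.eq.comp (Primrec.nat_mod.comp Primrec.id (Primrec.const 2)) (Primrec.const 0)
    · exact Primrec.succ.comp (Primrec.nat_div.comp Primrec.id (Primrec.const 2))
  refine (h.comp Primrec.encode).of_eq fun z => ?_
  cases z with
  | ofNat n =>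
    show (if (encode (n : ℤ)) % 2 = 0 then 0 else (encode (n : ℤ)) / 2 + 1) = (-(n:ℤ)).toNat
    rw [encode_int_ofNat, if_pos (by omega)]; omega
  | negSucc n =>
    show (if (encode (Int.negSucc n)) % 2 = 0 then 0 else (encode (Int.negSucc n)) / 2 + 1) =
      (-(Int.negSucc n)).toNat
    rw [encode_int_negSucc, if_neg (by omega)]
    rw [Int.neg_negSucc]
    simp
    omega

theorem prim_natSub : Primrec₂ (fun p q : ℕ => (p : ℤ) - (q : ℤ)) := by
  have h : Primrec₂ (fun p q : ℕ => if q ≤ p then 2 * (p - q) else 2 * (q - p) - 1) := by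
    refine Primrec.ite ?_ ?_ ?_
    · exact Primrec.nat_le.comp Primrec.snd Primrec.fst
    · exact Primrec.nat_mul.comp (Primrec.const 2) (Primrec.nat_sub.comp Primrec.fst Primrec.snd)
    · exact Primrec.nat_sub.comp (Primrec.nat_mul.comp (Primrec.const 2)
        (Primrec.nat_sub.comp Primrec.snd Primrec.fst)) (Primrec.const 1)
  refine Primrec.encode_iff.1 (Primrec.of_eq (α := ℕ × ℕ) h fun a => ?_)
  obtain ⟨p, q⟩ := a
  show (if q ≤ p then 2 * (p - q) else 2 * (q - p) - 1) = encode ((p : ℤ) - (q : ℤ))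
  split_ifs with hq
  · have : (p : ℤ) - q = ((p - q : ℕ) : ℤ) := by omega
    rw [this, encode_int_ofNat]
  · have : (p : ℤ) - q = Int.negSucc (q - p - 1) := by
      rw [Int.negSucc_eq]; omega
    rw [this, encode_int_negSucc]; omega

theorem prim_int_of_parts (f : ℤ → ℤ → ℤ) (P N : ℕ → ℕ → ℕ → ℕ → ℕ)
    (hP : Primrec (fun a : (ℕ × ℕ) × (ℕ × ℕ) => P a.1.1 a.1.2 a.2.1 a.2.2))
    (hN : Primrec (fun a : (ℕ × ℕ) × (ℕ × ℕ) => N a.1.1 a.1.2 a.2.1 a.2.2))
    (h : ∀ x y, f x y = (P x.toNat (-x).toNat y.toNat (-y).toNat : ℤ) -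
      (N x.toNat (-x).toNat y.toNat (-y).toNat : ℤ)) : Primrec₂ f := by
  have hx : Primrec (fun a : ℤ × ℤ => ((a.1.toNat, (-a.1).toNat), (a.2.toNat, (-a.2).toNat))) :=
    Primrec.pair (Primrec.pair (prim_toNat.comp Primrec.fst) (prim_toNat_neg.comp Primrec.fst))
      (Primrec.pair (prim_toNat.comp Primrec.snd) (prim_toNat_neg.comp Primrec.snd))
  refine (prim_natSub.comp (hP.comp hx) (hN.comp hx)).of_eq fun a => ?_
  exact (h a.1 a.2).symm

theorem prim_int_add : Primrec₂ (fun x y : ℤ => x + y) := by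
  refine prim_int_of_parts _ (fun a b c d => a + c) (fun a b c d => b + d) ?_ ?_ ?_
  · exact Primrec.nat_add.comp (Primrec.fst.comp Primrec.fst) (Primrec.fst.comp Primrec.snd)
  · exact Primrec.nat_add.comp (Primrec.snd.comp Primrec.fst) (Primrec.snd.comp Primrec.snd)
  · intro x y; push_cast; omega

theorem prim_int_neg : Primrec (fun x : ℤ => - x) := by
  have h : Primrec₂ (fun x _y : ℤ => - x) := by
    refine prim_int_of_parts _ (fun a b c d => b) (fun a b c d => a) ?_ ?_ ?_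
    · exact (Primrec.snd.comp Primrec.fst)
    · exact (Primrec.fst.comp Primrec.fst)
    · intro x y; omega
  exact h.comp Primrec.id Primrec.id

theorem prim_int_mul : Primrec₂ (fun x y : ℤ => x * y) := by
  refine prim_int_of_parts _ (fun a b c d => a * c + b * d) (fun a b c d => a * d + b * c) ?_ ?_ ?_
  · exact Primrec.nat_add.comp
      (Primrec.nat_mul.comp (Primrec.fst.comp Primrec.fst) (Primrec.fst.comp Primrec.snd))
      (Primrec.nat_mul.comp (Primrec.snd.comp Primrec.fst) (Primrec.snd.comp Primrec.snd))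
  · exact Primrec.nat_add.comp
      (Primrec.nat_mul.comp (Primrec.fst.comp Primrec.fst) (Primrec.snd.comp Primrec.snd))
      (Primrec.nat_mul.comp (Primrec.snd.comp Primrec.fst) (Primrec.fst.comp Primrec.snd))
  · intro x y
    push_cast
    have hx : x = (x.toNat : ℤ) - ((-x).toNat : ℤ) := by omega
    have hy : y = (y.toNat : ℤ) - ((-y).toNat : ℤ) := by omega
    generalize (x.toNat : ℤ) = a at *
    generalize ((-x).toNat : ℤ) = b at *
    generalize (y.toNat : ℤ) = c at *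
    generalize ((-y).toNat : ℤ) = d at *
    rw [hx, hy]
    ring

/-! ### zero test -/

theorem prim_sum : Primrec (fun l : List ℤ => l.sum) := by
  have h : Primrec (fun l : List ℤ => l.foldr (fun b s => b + s) 0) :=
    Primrec.list_foldr (h := fun _ p => p.1 + p.2) Primrec.id (Primrec.const 0)
      (prim_int_add.comp (Primrec.fst.comp Primrec.snd) (Primrec.snd.comp Primrec.snd))
  refine h.of_eq fun l => ?_
  induction l with
  | nil => rfl
  | cons a l ih => rw [List.foldr_cons, ih, List.sum_cons]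

theorem prim_mem : PrimrecRel (fun (x : ℕ) (l : List ℕ) => x ∈ l) := by
  have h : PrimrecRel (fun (l : List ℕ) (x : ℕ) => ∃ a ∈ l, a = x) :=
    PrimrecRel.exists_mem_list Primrec.eq
  refine (h.comp Primrec.snd Primrec.fst).of_eq fun p => ?_
  simp

theorem prim_sub : PrimrecRel (fun (l l' : List ℕ) => ∀ x ∈ l, x ∈ l') :=
  PrimrecRel.forall_mem_list prim_mem

theorem prim_same : PrimrecRel (fun (l l' : List ℕ) => same l l' = true) := by
  refine (PrimrecPred.and (prim_sub.comp Primrec.fst Primrec.snd)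
    (prim_sub.comp Primrec.snd Primrec.fst)).of_eq fun p => ?_
  simp [same]

/-- monomials -/
abbrev Mo := ℤ × ℕ × List ℕ

theorem prim_flt : PrimrecRel (fun (e : Mo) (b : ℕ × List ℕ) => e.2.1 = b.1 ∧ same e.2.2 b.2 = true) :=
  PrimrecPred.and
    (Primrec.eq.comp (Primrec.fst.comp (Primrec.snd.comp Primrec.fst)) (Primrec.fst.comp Primrec.snd))
    (prim_same.comp (Primrec.snd.comp (Primrec.snd.comp Primrec.fst)) (Primrec.snd.comp Primrec.snd))

theorem prim_coef : Primrec₂ (fun (L : C) (b : ℕ × List ℕ) => coef L b.1 b.2) := by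
  have h1 : Primrec₂ (fun (L : C) (b : ℕ × List ℕ) =>
      L.filter (fun e => decide (e.2.1 = b.1 ∧ same e.2.2 b.2 = true))) :=
    PrimrecRel.listFilter prim_flt
  have h2 : Primrec (fun p : C × (ℕ × List ℕ) =>
      ((p.1.filter (fun e => decide (e.2.1 = p.2.1 ∧ same e.2.2 p.2.2 = true))).map
        (fun e => e.1)).sum) :=
    prim_sum.comp (Primrec.list_map h1 (Primrec.fst.comp Primrec.snd))
  refine h2.of_eq fun p => ?_
  unfold coef
  congr 3
  ext e
  simp

theorem prim_zt : Primrec zt := by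
  have h1 : PrimrecRel (fun (e : Mo) (L : C) => coef L e.2.1 e.2.2 = 0) :=
    Primrec.eq.comp (prim_coef.comp Primrec.snd (Primrec.snd.comp Primrec.fst)) (Primrec.const 0)
  have h2 : PrimrecRel (fun (L L' : C) => ∀ e ∈ L, coef L' e.2.1 e.2.2 = 0) :=
    PrimrecRel.forall_mem_list h1
  have h3 : PrimrecPred (fun L : C => ∀ e ∈ L, coef L e.2.1 e.2.2 = 0) :=
    h2.comp Primrec.id Primrec.id
  refine h3.decide.of_eq fun L => ?_
  rw [Bool.eq_iff_iff]
  simp [zt]

/-! ### polynomials as lists of monomials -/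

/-- polynomials in one variable -/
abbrev Po := List (ℤ × ℕ)

/-- value -/
noncomputable def pv (τ : ℝ) (P : Po) : ℝ := (P.map (fun e => (e.1 : ℝ) * τ ^ e.2)).sum

theorem pv_nil (τ : ℝ) : pv τ [] = 0 := rfl

theorem pv_cons (τ : ℝ) (e : ℤ × ℕ) (P : Po) : pv τ (e :: P) = (e.1 : ℝ) * τ ^ e.2 + pv τ P := by
  simp [pv]

theorem pv_append (τ : ℝ) (P Q : Po) : pv τ (P ++ Q) = pv τ P + pv τ Q := by
  simp [pv]

/-- multiplication -/
def pmul (P Q : Po) : Po := P.flatMap (fun c => Q.map (fun d => (c.1 * d.1, c.2 + d.2)))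

theorem pv_map (τ : ℝ) (c : ℤ × ℕ) (Q : Po) :
    pv τ (Q.map (fun d => (c.1 * d.1, c.2 + d.2))) = (c.1 : ℝ) * τ ^ c.2 * pv τ Q := by
  induction Q with
  | nil => simp [pv_nil]
  | cons d Q ih =>
    rw [List.map_cons, pv_cons, ih, pv_cons]
    push_cast
    rw [pow_add]
    ring

theorem pv_pmul (τ : ℝ) (P Q : Po) : pv τ (pmul P Q) = pv τ P * pv τ Q := by
  induction P with
  | nil => simp [pmul, pv_nil]
  | cons c P ih =>
    have : pmul (c :: P) Q = Q.map (fun d => (c.1 * d.1, c.2 + d.2)) ++ pmul P Q := rfl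
    rw [this, pv_append, ih, pv_map, pv_cons]
    ring

theorem prim_pmul : Primrec₂ pmul := by
  refine Primrec.list_flatMap (f := fun p : Po × Po => p.1)
    (g := fun (p : Po × Po) (c : ℤ × ℕ) => p.2.map (fun d => (c.1 * d.1, c.2 + d.2)))
    Primrec.fst ?_
  refine Primrec.list_map (f := fun q : (Po × Po) × (ℤ × ℕ) => q.1.2)
    (g := fun (q : (Po × Po) × (ℤ × ℕ)) (d : ℤ × ℕ) => (q.2.1 * d.1, q.2.2 + d.2))
    (Primrec.snd.comp Primrec.fst) ?_
  exact Primrec.pair
    (prim_int_mul.comp (Primrec.fst.comp (Primrec.snd.comp Primrec.fst)) (Primrec.fst.comp Primrec.snd))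
    (Primrec.nat_add.comp (Primrec.snd.comp (Primrec.snd.comp Primrec.fst)) (Primrec.snd.comp Primrec.snd))

/-- the polynomial `gv k X` -/
def gp (k : ℕ) : Po := Nat.rec [(1, 1)] (fun _ P => pmul P P ++ [(-6, 0)]) k

theorem prim_gp : Primrec gp := by
  refine Primrec.nat_rec₁ (f := fun (_ : ℕ) (P : Po) => pmul P P ++ [(-6, 0)]) [(1, 1)] ?_
  exact Primrec.list_append.comp (prim_pmul.comp Primrec.snd Primrec.snd) (Primrec.const _)

theorem pv_gp (τ : ℝ) (k : ℕ) : pv τ (gp k) = gv k τ := by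
  induction k with
  | zero => simp [gp, pv, gv]
  | succ k ih =>
    have : gp (k + 1) = pmul (gp k) (gp k) ++ [(-6, 0)] := rfl
    rw [this, pv_append, pv_pmul, ih, gv]
    simp [pv]
    ring

/-- the polynomial `sg (s i) * gv (n i) X` -/
def gs (n : ℕ → ℕ) (s : ℕ → Bool) (i : ℕ) : Po := (gp (n i)).map (fun d => (sg (s i) * d.1, 0 + d.2))

theorem pv_gs (n : ℕ → ℕ) (s : ℕ → Bool) (τ : ℝ) (i : ℕ) :
    pv τ (gs n s i) = (sg (s i) : ℝ) * gv (n i) τ := by
  have := pv_map τ (sg (s i), 0) (gp (n i))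
  unfold gs
  rw [this, pv_gp]
  simp

theorem prim_gs (n : ℕ → ℕ) (s : ℕ → Bool) (hn : Primrec n) (hs : Primrec s) : Primrec (gs n s) := by
  refine Primrec.list_map (f := fun i => gp (n i))
    (g := fun (i : ℕ) (d : ℤ × ℕ) => (sg (s i) * d.1, 0 + d.2)) (prim_gp.comp hn) ?_
  exact Primrec.pair
    (prim_int_mul.comp ((Primrec.dom_finite sg).comp (hs.comp Primrec.fst)) (Primrec.fst.comp Primrec.snd))
    (Primrec.nat_add.comp (Primrec.const 0) (Primrec.snd.comp Primrec.snd))

/-! ### multiplication by `ρ i` -/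

/-- a monomial times `ρ i` -/
def mr (n : ℕ → ℕ) (s : ℕ → Bool) (i : ℕ) (e : Mo) : C :=
  if i ∈ e.2.2 then (gs n s i).map (fun d => (e.1 * d.1, e.2.1 + d.2, e.2.2.filter (fun x => decide (x ≠ i))))
  else [(e.1, e.2.1, i :: e.2.2)]

theorem prim_mr (n : ℕ → ℕ) (s : ℕ → Bool) (hn : Primrec n) (hs : Primrec s) : Primrec₂ (mr n s) := by
  refine Primrec.ite ?_ ?_ ?_
  · exact prim_mem.comp Primrec.fst (Primrec.snd.comp (Primrec.snd.comp Primrec.snd))
  · refine Primrec.list_map (f := fun p : ℕ × Mo => gs n s p.1)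
      (g := fun (p : ℕ × Mo) (d : ℤ × ℕ) =>
        (p.2.1 * d.1, p.2.2.1 + d.2, p.2.2.2.filter (fun x => decide (x ≠ p.1))))
      ((prim_gs n s hn hs).comp Primrec.fst) ?_
    refine Primrec.pair ?_ (Primrec.pair ?_ ?_)
    · exact prim_int_mul.comp (Primrec.fst.comp (Primrec.snd.comp Primrec.fst))
        (Primrec.fst.comp Primrec.snd)
    · exact Primrec.nat_add.comp
        (Primrec.fst.comp (Primrec.snd.comp (Primrec.snd.comp Primrec.fst)))
        (Primrec.snd.comp Primrec.snd)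
    · have h1 : PrimrecRel (fun (x i : ℕ) => x ≠ i) := PrimrecPred.not Primrec.eq
      have h2 : Primrec₂ (fun (l : List ℕ) (i : ℕ) => l.filter (fun x => decide (x ≠ i))) :=
        PrimrecRel.listFilter h1
      exact h2.comp (Primrec.snd.comp (Primrec.snd.comp (Primrec.snd.comp Primrec.fst)))
        (Primrec.fst.comp Primrec.fst)
  · refine Primrec.list_cons.comp (Primrec.pair ?_ (Primrec.pair ?_ ?_)) (Primrec.const [])
    · exact Primrec.fst.comp Primrec.snd
    · exact Primrec.fst.comp (Primrec.snd.comp Primrec.snd)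
    · exact Primrec.list_cons.comp Primrec.fst (Primrec.snd.comp (Primrec.snd.comp Primrec.snd))

theorem val_nil (τ : ℝ) (ρ : ℕ → ℝ) : val τ ρ [] = 0 := rfl

theorem val_cons (τ : ℝ) (ρ : ℕ → ℝ) (e : Mo) (L : C) :
    val τ ρ (e :: L) = (e.1 : ℝ) * τ ^ e.2.1 * (e.2.2.map ρ).prod + val τ ρ L := by
  simp [val]

theorem val_append (τ : ℝ) (ρ : ℕ → ℝ) (L L' : C) :
    val τ ρ (L ++ L') = val τ ρ L + val τ ρ L' := by
  simp [val]

theorem val_map (τ : ℝ) (ρ : ℕ → ℝ) (c : ℤ) (k : ℕ) (l : List ℕ) (P : Po) :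
    val τ ρ (P.map (fun d => (c * d.1, k + d.2, l))) =
      (c : ℝ) * τ ^ k * (l.map ρ).prod * pv τ P := by
  induction P with
  | nil => simp [val_nil, pv_nil]
  | cons d P ih =>
    rw [List.map_cons, val_cons, ih, pv_cons]
    push_cast
    rw [pow_add]
    ring

theorem prod_filter (ρ : ℕ → ℝ) (l : List ℕ) (hl : l.Nodup) (i : ℕ) (hi : i ∈ l) :
    (l.map ρ).prod = ρ i * ((l.filter (fun x => decide (x ≠ i))).map ρ).prod := by
  induction l with
  | nil => simp at hi
  | cons a l ih =>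
    rw [List.nodup_cons] at hl
    by_cases h : a = i
    · subst h
      have h1 : l.filter (fun x => decide (x ≠ a)) = l := by
        rw [List.filter_eq_self]
        intro x hx
        simp only [decide_eq_true_eq]
        rintro rfl
        exact hl.1 hx
      rw [List.filter_cons_of_neg (by simp), h1, List.map_cons, List.prod_cons]
    · have hi' : i ∈ l := by
        rcases List.mem_cons.1 hi with h' | h'
        · exact absurd h'.symm h
        · exact h'
      rw [List.filter_cons_of_pos (by simpa using h), List.map_cons, List.map_cons, List.prod_cons,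
        List.prod_cons, ih hl.2 hi']
      ring

theorem val_mr (n : ℕ → ℕ) (s : ℕ → Bool) (τ : ℝ) (ρ : ℕ → ℝ)
    (hρ : ∀ i, ρ i ^ 2 = (sg (s i) : ℝ) * gv (n i) τ) (i : ℕ) (e : Mo) (he : e.2.2.Nodup) :
    val τ ρ (mr n s i e) = ρ i * ((e.1 : ℝ) * τ ^ e.2.1 * (e.2.2.map ρ).prod) := by
  unfold mr
  split_ifs with h
  · rw [val_map, pv_gs, ← hρ, prod_filter ρ e.2.2 he i h]
    ring
  · rw [val_cons, val_nil]
    simp only [List.map_cons, List.prod_cons]
    ring

theorem ok_mr (n : ℕ → ℕ) (s : ℕ → Bool) (i : ℕ) (e : Mo) (he : e.2.2.Nodup) : Ok (mr n s i e) := by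
  intro d hd
  unfold mr at hd
  split_ifs at hd with h
  · obtain ⟨c, _, rfl⟩ := List.mem_map.1 hd
    exact he.filter _
  · rw [List.mem_singleton] at hd
    subst hd
    exact List.nodup_cons.2 ⟨h, he⟩

/-- a code times `ρ i` -/
def mrl (n : ℕ → ℕ) (s : ℕ → Bool) (i : ℕ) (L : C) : C := L.flatMap (mr n s i)

theorem prim_mrl (n : ℕ → ℕ) (s : ℕ → Bool) (hn : Primrec n) (hs : Primrec s) :
    Primrec₂ (mrl n s) := by
  refine Primrec.list_flatMap (f := fun p : ℕ × C => p.2)
    (g := fun (p : ℕ × C) (e : Mo) => mr n s p.1 e) Primrec.snd ?_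
  exact (prim_mr n s hn hs).comp (Primrec.fst.comp Primrec.fst) Primrec.snd

theorem ok_mrl (n : ℕ → ℕ) (s : ℕ → Bool) (i : ℕ) (L : C) (hL : Ok L) : Ok (mrl n s i L) := by
  intro d hd
  obtain ⟨e, he, hd'⟩ := List.mem_flatMap.1 hd
  exact ok_mr n s i e (hL e he) d hd'

theorem val_mrl (n : ℕ → ℕ) (s : ℕ → Bool) (τ : ℝ) (ρ : ℕ → ℝ)
    (hρ : ∀ i, ρ i ^ 2 = (sg (s i) : ℝ) * gv (n i) τ) (i : ℕ) (L : C) (hL : Ok L) :
    val τ ρ (mrl n s i L) = ρ i * val τ ρ L := by
  induction L with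
  | nil => simp [mrl, val_nil]
  | cons e L ih =>
    have h1 : mrl n s i (e :: L) = mr n s i e ++ mrl n s i L := rfl
    rw [h1, val_append, val_mr n s τ ρ hρ i e (hL e List.mem_cons_self),
      ih (fun d hd => hL d (List.mem_cons_of_mem _ hd)), val_cons]
    ring

/-! ### multiplication -/

/-- a code times `c * τ ^ k` -/
def mt (c : ℤ) (k : ℕ) (L : C) : C := L.map (fun d => (c * d.1, k + d.2.1, d.2.2))

theorem ok_mt (c : ℤ) (k : ℕ) (L : C) (hL : Ok L) : Ok (mt c k L) := by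
  intro d hd
  obtain ⟨e, he, rfl⟩ := List.mem_map.1 hd
  exact hL e he

theorem val_mt (τ : ℝ) (ρ : ℕ → ℝ) (c : ℤ) (k : ℕ) (L : C) :
    val τ ρ (mt c k L) = (c : ℝ) * τ ^ k * val τ ρ L := by
  induction L with
  | nil => simp [mt, val_nil]
  | cons e L ih =>
    have h1 : mt c k (e :: L) = (c * e.1, k + e.2.1, e.2.2) :: mt c k L := rfl
    rw [h1, val_cons, ih, val_cons]
    push_cast
    rw [pow_add]
    ring

/-- a code times a monomial -/
def mm (n : ℕ → ℕ) (s : ℕ → Bool) (e : Mo) (L : C) : C :=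
  e.2.2.foldr (fun i M => mrl n s i M) (mt e.1 e.2.1 L)

theorem prim_mm (n : ℕ → ℕ) (s : ℕ → Bool) (hn : Primrec n) (hs : Primrec s) :
    Primrec₂ (mm n s) := by
  refine Primrec.list_foldr (f := fun p : Mo × C => p.1.2.2)
    (g := fun p : Mo × C => mt p.1.1 p.1.2.1 p.2) (h := fun (_ : Mo × C) (q : ℕ × C) => mrl n s q.1 q.2)
    (Primrec.snd.comp (Primrec.snd.comp Primrec.fst)) ?_ ?_
  · refine Primrec.list_map (f := fun p : Mo × C => p.2)
      (g := fun (p : Mo × C) (d : Mo) => (p.1.1 * d.1, p.1.2.1 + d.2.1, d.2.2)) Primrec.snd ?_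
    refine Primrec.pair ?_ (Primrec.pair ?_ ?_)
    · exact prim_int_mul.comp (Primrec.fst.comp (Primrec.fst.comp Primrec.fst))
        (Primrec.fst.comp Primrec.snd)
    · exact Primrec.nat_add.comp
        (Primrec.fst.comp (Primrec.snd.comp (Primrec.fst.comp Primrec.fst)))
        (Primrec.fst.comp (Primrec.snd.comp Primrec.snd))
    · exact Primrec.snd.comp (Primrec.snd.comp Primrec.snd)
  · exact (prim_mrl n s hn hs).comp (Primrec.fst.comp Primrec.snd) (Primrec.snd.comp Primrec.snd)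

theorem ok_mm (n : ℕ → ℕ) (s : ℕ → Bool) (e : Mo) (L : C) (hL : Ok L) : Ok (mm n s e L) := by
  unfold mm
  generalize e.2.2 = l
  induction l with
  | nil => exact ok_mt _ _ _ hL
  | cons i l ih => exact ok_mrl n s i _ ih

theorem val_mm (n : ℕ → ℕ) (s : ℕ → Bool) (τ : ℝ) (ρ : ℕ → ℝ)
    (hρ : ∀ i, ρ i ^ 2 = (sg (s i) : ℝ) * gv (n i) τ) (e : Mo) (L : C) (hL : Ok L) :
    val τ ρ (mm n s e L) = (e.1 : ℝ) * τ ^ e.2.1 * (e.2.2.map ρ).prod * val τ ρ L := by
  have key : ∀ l : List ℕ, Ok (l.foldr (fun i M => mrl n s i M) (mt e.1 e.2.1 L)) ∧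
      val τ ρ (l.foldr (fun i M => mrl n s i M) (mt e.1 e.2.1 L)) =
        (e.1 : ℝ) * τ ^ e.2.1 * (l.map ρ).prod * val τ ρ L := by
    intro l
    induction l with
    | nil =>
      refine ⟨ok_mt _ _ _ hL, ?_⟩
      rw [List.foldr_nil, val_mt]
      simp
    | cons i l ih =>
      refine ⟨ok_mrl n s i _ ih.1, ?_⟩
      rw [List.foldr_cons, val_mrl n s τ ρ hρ i _ ih.1, ih.2, List.map_cons, List.prod_cons]
      ring
  exact (key e.2.2).2

/-- multiplication of codes -/
def mu (n : ℕ → ℕ) (s : ℕ → Bool) (p : C × C) : C := p.1.flatMap (fun e => mm n s e p.2)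

theorem prim_mu (n : ℕ → ℕ) (s : ℕ → Bool) (hn : Primrec n) (hs : Primrec s) :
    Primrec (mu n s) := by
  refine Primrec.list_flatMap (f := fun p : C × C => p.1)
    (g := fun (p : C × C) (e : Mo) => mm n s e p.2) Primrec.fst ?_
  exact (prim_mm n s hn hs).comp Primrec.snd (Primrec.snd.comp Primrec.fst)

theorem ok_mu (n : ℕ → ℕ) (s : ℕ → Bool) (L L' : C) (hL' : Ok L') : Ok (mu n s (L, L')) := by
  intro d hd
  obtain ⟨e, _, hd'⟩ := List.mem_flatMap.1 hd
  exact ok_mm n s e L' hL' d hd'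

theorem val_mu (n : ℕ → ℕ) (s : ℕ → Bool) (τ : ℝ) (ρ : ℕ → ℝ)
    (hρ : ∀ i, ρ i ^ 2 = (sg (s i) : ℝ) * gv (n i) τ) (L L' : C) (hL' : Ok L') :
    val τ ρ (mu n s (L, L')) = val τ ρ L * val τ ρ L' := by
  induction L with
  | nil => simp [mu, val_nil]
  | cons e L ih =>
    have h1 : mu n s (e :: L, L') = mm n s e L' ++ mu n s (L, L') := rfl
    rw [h1, val_append, val_mm n s τ ρ hρ e L' hL', ih, val_cons]
    ring

/-- negation of codes -/
def ng (L : C) : C := L.map (fun d => (-d.1, d.2))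

theorem prim_ng : Primrec ng := by
  refine Primrec.list_map (f := fun L : C => L) (g := fun (_ : C) (d : Mo) => (-d.1, d.2))
    Primrec.id ?_
  exact Primrec.pair (prim_int_neg.comp (Primrec.fst.comp Primrec.snd)) (Primrec.snd.comp Primrec.snd)

theorem ok_ng (L : C) (hL : Ok L) : Ok (ng L) := by
  intro d hd
  obtain ⟨e, he, rfl⟩ := List.mem_map.1 hd
  exact hL e he

theorem val_ng (τ : ℝ) (ρ : ℕ → ℝ) (L : C) : val τ ρ (ng L) = - val τ ρ L := by
  induction L with
  | nil => simp [ng, val_nil]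
  | cons e L ih =>
    have h1 : ng (e :: L) = (-e.1, e.2) :: ng L := rfl
    rw [h1, val_cons, ih, val_cons]
    push_cast
    ring

end Pool.Agent.H662.FR.XRNG

namespace Pool.Agent.H662.FR

open XRNG

/-- **RNG** -/
theorem t_RNG : S_RNG := by
  intro n s hn hs
  refine ⟨fun p => p.1 ++ p.2, mu n s, ng, Primrec.list_append, prim_mu n s hn hs, prim_ng, prim_zt,
    ?_, ?_⟩
  · intro L L' hL hL'
    refine ⟨?_, ok_mu n s L L' hL', ok_ng L hL⟩
    intro e he
    rcases List.mem_append.1 he with h | h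
    · exact hL e h
    · exact hL' e h
  · intro τ ρ hρ L L' _ hL'
    exact ⟨val_append τ ρ L L', val_mu n s τ ρ hρ L L' hL', val_ng τ ρ L⟩

end Pool.Agent.H662.FR
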