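import Pool.Agent.H662.FR.Stm

/-!
# Project FR of helper662: the frozen statement S14744 from the leaves, helper440
-/

set_option autoImplicit false

namespace Pool.Agent.H662.FR

namespace XRS

/-- a subfield of the real numbers is formally real -/
theorem formally_real (K : Subfield ℝ) (n : ℕ) (c : Fin n → K) (h : ∑ i, c i ^ 2 = 0) :
    ∀ i, c i = 0 := by
  have h1 : ∑ i, ((c i : K) : ℝ) ^ 2 = 0 := by
    have h2 : ((∑ i, c i ^ 2 : K) : ℝ) = ((0 : K) : ℝ) := by rw [h]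
    simpa using h2
  intro i
  have h3 := (Finset.sum_eq_zero_iff_of_nonneg fun j _ => sq_nonneg ((c j : K) : ℝ)).1 h1 i
    (Finset.mem_univ i)
  have h4 : ((c i : K) : ℝ) = 0 := pow_eq_zero_iff two_ne_zero |>.1 h3
  exact Subtype.ext h4

end XRS

theorem t_RS (hINS : S_INS) (hTAU : S_TAU) (hKPR : S_KPR) (hORD : S_ORD) : S_RS := by
  intro H
  obtain ⟨n, s, hd⟩ := hINS
  obtain ⟨τ, hτ, hpos⟩ := hTAU n s hd.inj hd.free
  have hρ : ∀ i, (fun i => Real.sqrt ((sg (s i) : ℝ) * gv (n i) τ)) i ^ 2 =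
      (sg (s i) : ℝ) * gv (n i) τ := fun i => Real.sq_sqrt (hpos i).le
  have hρ0 : ∀ i, (fun i => Real.sqrt ((sg (s i) : ℝ) * gv (n i) τ)) i ≠ 0 :=
    fun i => (Real.sqrt_pos.2 (hpos i)).ne'
  obtain ⟨e₀, he₀⟩ := hKPR n s hd.pn hd.ps hd.inj τ _ hτ hρ
  obtain ⟨e, h1, h2, h3, h4, P, hP, h0, ha, hm, ht⟩ :=
    H (KF τ fun i => Real.sqrt ((sg (s i) : ℝ) * gv (n i) τ)) (XRS.formally_real _) ⟨e₀, he₀⟩
  exact hORD n s hd τ _ hρ hρ0 e ⟨h1, h2, h3, h4⟩ P hP h0 ha hm ht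

end Pool.Agent.H662.FR
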