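import Pool.Agent.H662.FR.Stm

set_option autoImplicit false

namespace Pool.Agent.H662.FR

namespace XTAU

theorem gv_succ (k : ℕ) (x : ℝ) : gv (k + 1) x = gv k (x ^ 2 - 6) := by
  induction k with
  | zero => rfl
  | succ k ih =>
    show gv (k + 1) x ^ 2 - 6 = gv k (x ^ 2 - 6) ^ 2 - 6
    rw [ih]

theorem gv_cont (k : ℕ) : Continuous (fun x : ℝ => gv k x) := by
  induction k with
  | zero => exact continuous_id
  | succ k ih => exact (ih.pow 2).sub continuous_const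

theorem sg_sq (b : Bool) : (sg b : ℝ) * (sg b : ℝ) = 1 := by
  cases b <;> simp [sg]

theorem sg_abs (b : Bool) : |(sg b : ℝ)| = 1 := by
  cases b <;> simp [sg]

/-- the points which follow the pattern up to the time `m` -/
def K (ε : ℕ → Bool) (m : ℕ) : Set ℝ :=
  {x | ∀ k ≤ m, |gv k x| ≤ 3 ∧ Real.sqrt 3 ≤ (sg (ε k) : ℝ) * gv k x}

theorem K_nonempty (m : ℕ) : ∀ ε : ℕ → Bool, (K ε m).Nonempty := by
  induction m with
  | zero =>
    intro ε
    refine ⟨(sg (ε 0) : ℝ) * 3, fun k hk => ?_⟩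
    obtain rfl : k = 0 := Nat.le_zero.1 hk
    show |(sg (ε 0) : ℝ) * 3| ≤ 3 ∧ Real.sqrt 3 ≤ (sg (ε 0) : ℝ) * ((sg (ε 0) : ℝ) * 3)
    rw [abs_mul, sg_abs, ← mul_assoc, sg_sq, one_mul, one_mul]
    refine ⟨by norm_num, ?_⟩
    rw [Real.sqrt_le_left (by norm_num)]
    norm_num
  | succ m ih =>
    intro ε
    obtain ⟨z, hz⟩ := ih fun k => ε (k + 1)
    have hz0 := abs_le.1 (hz 0 (Nat.zero_le m)).1
    have hz1 : -3 ≤ z := hz0.1
    have hz2 : z ≤ 3 := hz0.2
    refine ⟨(sg (ε 0) : ℝ) * Real.sqrt (6 + z), fun k hk => ?_⟩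
    rcases k with _ | k
    · show |(sg (ε 0) : ℝ) * Real.sqrt (6 + z)| ≤ 3 ∧
        Real.sqrt 3 ≤ (sg (ε 0) : ℝ) * ((sg (ε 0) : ℝ) * Real.sqrt (6 + z))
      rw [abs_mul, sg_abs, ← mul_assoc, sg_sq, one_mul, one_mul, abs_of_nonneg (Real.sqrt_nonneg _)]
      refine ⟨?_, Real.sqrt_le_sqrt (by linarith)⟩
      rw [Real.sqrt_le_left (by norm_num)]
      linarith
    · have h1 : ((sg (ε 0) : ℝ) * Real.sqrt (6 + z)) ^ 2 - 6 = z := by
        rw [mul_pow, Real.sq_sqrt (by linarith), pow_two, sg_sq]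
        ring
      rw [gv_succ, h1]
      exact hz k (by omega)

theorem K_closed (ε : ℕ → Bool) (m : ℕ) : IsClosed (K ε m) := by
  have e : K ε m = ⋂ k, ⋂ (_ : k ≤ m),
      {x : ℝ | |gv k x| ≤ 3 ∧ Real.sqrt 3 ≤ (sg (ε k) : ℝ) * gv k x} := by
    ext x
    simp only [K, Set.mem_ofPred_eq, Set.mem_iInter]
  rw [e]
  refine isClosed_iInter fun k => isClosed_iInter fun _ => ?_
  exact (isClosed_le (gv_cont k).abs continuous_const).inter
    (isClosed_le continuous_const (continuous_const.mul (gv_cont k)))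

theorem exists_pt (ε : ℕ → Bool) : ∃ x : ℝ, ∀ k, 0 < (sg (ε k) : ℝ) * gv k x := by
  have h0 : IsCompact (K ε 0) := by
    refine (isCompact_Icc (a := (-3 : ℝ)) (b := 3)).of_isClosed_subset (K_closed ε 0) ?_
    intro x hx
    exact abs_le.1 (hx 0 le_rfl).1
  obtain ⟨x, hx⟩ := IsCompact.nonempty_iInter_of_sequence_nonempty_isCompact_isClosed (K ε)
    (fun m x hx k hk => hx k (by omega)) (fun m => K_nonempty m ε) h0 (K_closed ε)
  refine ⟨x, fun k => ?_⟩
  have h1 := (Set.mem_iInter.1 hx k k le_rfl).2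
  have h2 : 0 < Real.sqrt 3 := Real.sqrt_pos.2 (by norm_num)
  linarith

theorem sg_inj {b b' : Bool} {y : ℝ} (h : 0 < (sg b : ℝ) * y) (h' : 0 < (sg b' : ℝ) * y) :
    b = b' := by
  cases b <;> cases b' <;> simp [sg] at h h' ⊢ <;> linarith

end XTAU

open XTAU in
theorem t_TAU : S_TAU := by
  classical
  intro n s hinj hfree
  obtain ⟨ε, hε⟩ : ∃ ε : (ℕ → Bool) → ℕ → Bool, ∀ δ,
      (∀ i, ε δ (n i) = s i) ∧ ∀ k, ε δ (3 * k + 2) = δ k := by
    refine ⟨fun δ m => if h : ∃ i, n i = m then s h.choose else δ (m / 3), fun δ => ⟨?_, ?_⟩⟩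
    · intro i
      have h : ∃ j, n j = n i := ⟨i, rfl⟩
      show (if h : ∃ j, n j = n i then s h.choose else δ (n i / 3)) = s i
      rw [dif_pos h, hinj h.choose_spec]
    · intro k
      have h : ¬ ∃ j, n j = 3 * k + 2 := fun ⟨j, hj⟩ => hfree j k hj
      show (if h : ∃ j, n j = 3 * k + 2 then s h.choose else δ ((3 * k + 2) / 3)) = δ k
      rw [dif_neg h]
      apply congrArg
      omega
  choose x hx using fun δ => exists_pt (ε δ)
  by_contra hcon
  push Not at hcon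
  have halg : ∀ δ, IsAlgebraic ℚ (x δ) := by
    intro δ
    by_contra hna
    obtain ⟨i, hi⟩ := hcon (x δ) hna
    have h1 := hx δ (n i)
    rw [(hε δ).1 i] at h1
    linarith
  have hxinj : Function.Injective x := by
    intro δ δ' he
    funext k
    have h1 := hx δ (3 * k + 2)
    have h2 := hx δ' (3 * k + 2)
    rw [(hε δ).2 k] at h1
    rw [(hε δ').2 k, ← he] at h2
    exact sg_inj h1 h2
  have hc : Countable {y : ℝ | IsAlgebraic ℚ y} := (Algebraic.countable ℚ ℝ).to_subtype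
  obtain ⟨g, hg⟩ := hc.exists_injective_nat
  refine Function.cantor_injective
    (fun S : Set ℕ => g ⟨x (fun m => decide (m ∈ S)), halg _⟩) ?_
  intro S S' he
  have h1 := congrArg Subtype.val (hg he)
  have h2 := hxinj h1
  ext m
  have h3 := congrFun h2 m
  exact decide_eq_decide.1 h3

end Pool.Agent.H662.FR
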