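import Pool.Agent.H662.FR.IND
import Pool.Agent.H662.FR.INS
import Pool.Agent.H662.FR.KPR
import Pool.Agent.H662.FR.MQ
import Pool.Agent.H662.FR.NSQ
import Pool.Agent.H662.FR.OKP
import Pool.Agent.H662.FR.ORD
import Pool.Agent.H662.FR.PRE
import Pool.Agent.H662.FR.QUO
import Pool.Agent.H662.FR.RNG
import Pool.Agent.H662.FR.RS
import Pool.Agent.H662.FR.TAU

/-! # Assembly of the proof of S14744 -/

set_option autoImplicit false

namespace Pool.Agent.H662.FR

theorem main : S_RS := t_RS t_INS t_TAU (t_KPR (t_IND t_MQ t_NSQ) t_RNG t_OKP t_PRE (t_QUO t_RNG)) t_ORD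

end Pool.Agent.H662.FR
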