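import Pool.Agent.H662.FR.Stm

set_option autoImplicit false

namespace Pool.Agent.H662.FR

namespace XIND

open Polynomial

lemma same_iff (l l' : List ℕ) : same l l' = true ↔ l.toFinset = l'.toFinset := by
  unfold same
  rw [Bool.and_eq_true, List.all_eq_true, List.all_eq_true]
  simp only [decide_eq_true_eq]
  constructor
  · rintro ⟨h1, h2⟩
    ext x
    rw [List.mem_toFinset, List.mem_toFinset]
    exact ⟨h1 x, h2 x⟩
  · intro h
    refine ⟨fun x hx => ?_, fun x hx => ?_⟩
    · rw [← List.mem_toFinset, ← h, List.mem_toFinset]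
      exact hx
    · rw [← List.mem_toFinset, h, List.mem_toFinset]
      exact hx

/-- the coefficient of the product over `S`, a polynomial -/
noncomputable def q (L : C) (S : Finset ℕ) : ℚ[X] :=
  (L.map (fun e => if e.2.2.toFinset = S then monomial e.2.1 ((e.1 : ℤ) : ℚ) else 0)).sum

lemma q_cons (e : ℤ × ℕ × List ℕ) (L : C) (S : Finset ℕ) :
    q (e :: L) S = (if e.2.2.toFinset = S then monomial e.2.1 ((e.1 : ℤ) : ℚ) else 0) + q L S := by
  unfold q
  rw [List.map_cons, List.sum_cons]

lemma coef_cons (e : ℤ × ℕ × List ℕ) (L : C) (k : ℕ) (l : List ℕ) :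
    coef (e :: L) k l =
      (if e.2.1 = k ∧ e.2.2.toFinset = l.toFinset then e.1 else 0) + coef L k l := by
  unfold coef
  rw [List.filter_cons]
  by_cases h : e.2.1 = k ∧ e.2.2.toFinset = l.toFinset
  · have h1 : (decide (e.2.1 = k) && same e.2.2 l) = true := by
      rw [Bool.and_eq_true, decide_eq_true_eq, same_iff]
      exact h
    rw [if_pos h1, if_pos h, List.map_cons, List.sum_cons]
  · have h1 : ¬ (decide (e.2.1 = k) && same e.2.2 l) = true := by
      rw [Bool.and_eq_true, decide_eq_true_eq, same_iff]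
      exact h
    rw [if_neg h1, if_neg h, zero_add]

lemma coeff_q (k : ℕ) (l : List ℕ) (L : C) : (q L l.toFinset).coeff k = ((coef L k l : ℤ) : ℚ) := by
  induction L with
  | nil => simp [q, coef]
  | cons e L ih =>
    rw [q_cons, coef_cons, coeff_add, ih, Int.cast_add]
    congr 1
    by_cases h1 : e.2.2.toFinset = l.toFinset
    · rw [if_pos h1, coeff_monomial]
      by_cases h2 : e.2.1 = k
      · rw [if_pos h2, if_pos ⟨h2, h1⟩]
      · rw [if_neg h2, if_neg (fun h => h2 h.1), Int.cast_zero]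
    · rw [if_neg h1, if_neg (fun h => h1 h.2), coeff_zero, Int.cast_zero]

lemma coeff_q_none (k : ℕ) (S : Finset ℕ) (L : C)
    (h : ∀ e ∈ L, ¬ (e.2.1 = k ∧ e.2.2.toFinset = S)) : (q L S).coeff k = 0 := by
  induction L with
  | nil => simp [q]
  | cons e L ih =>
    rw [q_cons, coeff_add, ih fun e' he' => h e' (List.mem_cons_of_mem _ he'), add_zero]
    have h0 := h e List.mem_cons_self
    by_cases h1 : e.2.2.toFinset = S
    · rw [if_pos h1, coeff_monomial, if_neg fun h2 => h0 ⟨h2, h1⟩]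
    · rw [if_neg h1, coeff_zero]

lemma val_eq (τ : ℝ) (ρ : ℕ → ℝ) (E : Finset ℕ) (L : C) (hok : Ok L)
    (hE : ∀ e ∈ L, e.2.2.toFinset ⊆ E) :
    val τ ρ L = ∑ S ∈ E.powerset, aeval τ (q L S) * ∏ i ∈ S, ρ i := by
  induction L with
  | nil => simp [val, q]
  | cons e L ih =>
    have h1 : val τ ρ (e :: L) = (e.1 : ℝ) * τ ^ e.2.1 * (e.2.2.map ρ).prod + val τ ρ L := by
      unfold val
      rw [List.map_cons, List.sum_cons]
    rw [h1, ih (fun e' he' => hok e' (List.mem_cons_of_mem _ he'))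
      (fun e' he' => hE e' (List.mem_cons_of_mem _ he'))]
    have h2 : ∀ S ∈ E.powerset, aeval τ (q (e :: L) S) * ∏ i ∈ S, ρ i =
        (if e.2.2.toFinset = S then (e.1 : ℝ) * τ ^ e.2.1 * ∏ i ∈ e.2.2.toFinset, ρ i else 0) +
          aeval τ (q L S) * ∏ i ∈ S, ρ i := by
      intro S _
      rw [q_cons, map_add, add_mul]
      congr 1
      by_cases h : e.2.2.toFinset = S
      · rw [if_pos h, if_pos h, aeval_monomial, h]
        simp
      · rw [if_neg h, if_neg h, map_zero, zero_mul]
    rw [Finset.sum_congr rfl h2, Finset.sum_add_distrib, Finset.sum_ite_eq,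
      if_pos (Finset.mem_powerset.2 (hE e List.mem_cons_self)),
      List.prod_toFinset ρ (hok e List.mem_cons_self)]

lemma map_gv {R T : Type} [Ring R] [Ring T] (f : R →+* T) (k : ℕ) (x : R) :
    f (gv k x) = gv k (f x) := by
  induction k with
  | zero => rfl
  | succ k ih =>
    show f (gv k x ^ 2 - 6) = gv k (f x) ^ 2 - 6
    rw [map_sub, map_pow, ih, map_ofNat]

end XIND

open Polynomial in
theorem t_IND (hMQ : S_MQ) (hNSQ : S_NSQ) : S_IND := by
  intro n s hn τ ρ hτ hρ L hok
  have hinj : ∀ p : ℚ[X], aeval τ p = 0 → p = 0 := by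
    intro p hp
    exact (transcendental_iff.1 hτ) p hp
  have hzt : zt L = true ↔ ∀ e ∈ L, coef L e.2.1 e.2.2 = 0 := by
    unfold zt
    rw [List.all_eq_true]
    simp only [decide_eq_true_eq]
  obtain ⟨E, hE⟩ : ∃ E : Finset ℕ, ∀ e ∈ L, e.2.2.toFinset ⊆ E := by
    refine ⟨(L.flatMap fun e => e.2.2).toFinset, fun e he x hx => ?_⟩
    rw [List.mem_toFinset] at hx ⊢
    rw [List.mem_flatMap]
    exact ⟨e, he, hx⟩
  rw [hzt, XIND.val_eq τ ρ E L hok hE]
  constructor
  · intro h
    refine Finset.sum_eq_zero fun S _ => ?_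
    have hq : XIND.q L S = 0 := by
      ext k
      rw [coeff_zero]
      by_cases hex : ∃ e ∈ L, e.2.1 = k ∧ e.2.2.toFinset = S
      · obtain ⟨e, he, rfl, rfl⟩ := hex
        rw [XIND.coeff_q, h e he, Int.cast_zero]
      · push Not at hex
        exact XIND.coeff_q_none k S L fun e he h' => hex e he h'.1 h'.2
    rw [hq, map_zero, zero_mul]
  · intro h e he
    -- the field `ℚ(τ)`
    obtain ⟨K, hK⟩ : ∃ K : Subfield ℝ, ∀ x : ℝ, x ∈ K ↔
        ∃ r t : ℚ[X], x = aeval τ r / aeval τ t := by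
      refine ⟨(IntermediateField.adjoin ℚ {τ}).toSubfield, fun x => ?_⟩
      rw [IntermediateField.mem_toSubfield]
      exact IntermediateField.mem_adjoin_simple_iff ℚ x
    have hKa : ∀ r : ℚ[X], aeval τ r ∈ K := by
      intro r
      rw [hK]
      exact ⟨r, 1, by rw [map_one, div_one]⟩
    -- the products as polynomials
    have hgv : ∀ i, aeval τ (((sg (s i) : ℤ) : ℚ[X]) * gv (n i) (X : ℚ[X])) = ρ i ^ 2 := by
      intro i
      rw [hρ i, map_mul, map_intCast]
      congr 1
      have h1 := XIND.map_gv (aeval τ : ℚ[X] →ₐ[ℚ] ℝ).toRingHom (n i) (X : ℚ[X])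
      have h2 : (aeval τ : ℚ[X] →ₐ[ℚ] ℝ).toRingHom (X : ℚ[X]) = τ := aeval_X τ
      rw [h2] at h1
      exact h1
    have key := hMQ K ρ (fun i => ρ i ^ 2) E (fun i _ => by
        show ρ i ^ 2 ∈ K
        rw [← hgv i]
        exact hKa _) (fun i _ => rfl) (by
        intro S _ hS b hb hb2
        obtain ⟨A, hA⟩ : ∃ A : ℚ[X], A = ∏ i ∈ S,
          (((sg (s i) : ℤ) : ℚ[X]) * gv (n i) (X : ℚ[X])) := ⟨_, rfl⟩
        have hAv : aeval τ A = ∏ i ∈ S, ρ i ^ 2 := by
          rw [hA, map_prod]
          exact Finset.prod_congr rfl fun i _ => hgv i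
        have hb3 : b ^ 2 = aeval τ A := by
          rw [hAv]
          exact hb2
        obtain ⟨r, t, hrt⟩ := (hK b).1 hb
        by_cases ht : aeval τ t = 0
        · rw [hrt, ht, div_zero, zero_pow (by norm_num)] at hb3
          have hA0 : A = 0 := hinj A hb3.symm
          apply hNSQ n s hn S hS 1 0 one_ne_zero
          rw [← hA, hA0, mul_zero]
          exact (zero_pow (by norm_num)).symm
        · have ht0 : t ≠ 0 := by
            rintro rfl
            exact ht (map_zero _)
          apply hNSQ n s hn S hS t r ht0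
          rw [← hA, ← sub_eq_zero]
          apply hinj
          rw [map_sub, map_mul, map_pow, map_pow, ← hb3, hrt, div_pow,
            mul_div_cancel₀ _ (pow_ne_zero 2 ht), sub_self])
      (fun S => aeval τ (XIND.q L S)) (fun S => hKa _) h
    have h1 : aeval τ (XIND.q L e.2.2.toFinset) = 0 := key _ (hE e he)
    have h2 := hinj _ h1
    have h3 := XIND.coeff_q e.2.1 e.2.2 L
    rw [h2, coeff_zero] at h3
    exact_mod_cast h3.symm

end Pool.Agent.H662.FR
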