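import Mathlib

/-!
# Definitions and statements for S14744 (MP_5ae901_lc), negative answer

There is a computable formally real field no computable copy of which has a computable ordering.

The field is generated over `ℚ` by a transcendental real `τ` and by `ρ i = √(± g (n i) τ)`, where `g 0 = X`,
`g (k+1) = g k ^ 2 - 6`, the sign being `s i`, for computable `n`, `s` such that no computable function
separates: for each computable `h` there is `i` with `h (n i) ≠ s i`. In any computable copy one computes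
`g k τ` from `k`, and a computable ordering would give a computable `h`, as `± g (n i) τ` is a square.
All sign patterns of the numbers `g k τ` are possible for real `τ` (the map `x ↦ x^2 - 6` has a full shift).
-/

set_option autoImplicit false

namespace Pool.Agent.H662.FR

/-- iterates of `x^2 - 6` in a ring -/
def gv {R : Type} [Ring R] : ℕ → R → R
  | 0, x => x
  | k + 1, x => gv k x ^ 2 - 6

/-- the sign of a Boolean -/
def sg (b : Bool) : ℤ := if b then 1 else -1

/-- data: injective `n` with free places `3k+2`, signs `s`, not separable by a computable function -/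
structure Dat (n : ℕ → ℕ) (s : ℕ → Bool) : Prop where
  pn : Primrec n
  ps : Primrec s
  inj : Function.Injective n
  free : ∀ i k, n i ≠ 3 * k + 2
  ins : ∀ h : ℕ → Bool, Computable h → ∃ i, h (n i) ≠ s i

/-- INS. Proof: `i = ⟨e, k⟩` (Nat.unpair) is active if the code `ofNat Code e` evaluated on input `3e`
by `evaln` halts with bound `k` but not with bound `j < k`; let `y` be the value. For active `i` put `n i = 3e`,
`s i = (y == 0)`; for inactive `i` put `n i = 3i+1`, `s i = true`. Given computable `h`, take a code `e` of the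
partial function `x ↦ if h x then 1 else 0`; it halts on `3e`, with first bound `k`; for `i = ⟨e,k⟩`:
`s i = true` iff the value is 0 iff `h (3e) = false`. -/
def S_INS : Prop := ∃ n s, Dat n s

/-- TAU. Proof: for a pattern `ε : ℕ → Bool` there is `x ∈ [-3,3]` with `gv k x ∈ [-3,3]` and
`0 < sg (ε k) * gv k x` for all `k`: the compact sets `K_m = {x | ∀ k ≤ m, |gv k x| ≤ 3, √3 ≤ sg (ε k) * gv k x}` are
nonempty (`x_m` arbitrary with the right sign, `x_k = sg (ε k) * √(6 + x_{k+1})`, `√3 ≤ √(6+y) ≤ 3` for `|y| ≤ 3`) and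
decreasing. Different patterns give different `x`. There are uncountably many patterns `ε` with
`ε (n i) = s i` for all `i` (free places), and only countably many algebraic numbers. -/
def S_TAU : Prop := ∀ (n : ℕ → ℕ) (s : ℕ → Bool), Function.Injective n → (∀ i k, n i ≠ 3 * k + 2) →
  ∃ τ : ℝ, Transcendental ℚ τ ∧ ∀ i, 0 < (sg (s i) : ℝ) * gv (n i) τ

/-- MQ. Independence of square roots. Proof: induction on the finite set, generalizing the subfield `K`:
if `E = insert i E'`, apply the induction hypothesis to `K' = K(ρ i)` (closure of `K ∪ {ρ i}`, all its elements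
are `u + v ρ i` with `u v ∈ K`): if a nonempty subproduct `b = Π_{j ∈ S} a_j` (`S ⊆ E'`) is the square
`(u + v ρ i)^2` then `2 u v ρ i ∈ K` so `u = 0` or `v = 0` (`ρ i ∉ K` as `a i` is not a square in `K`), so `b` or
`b * a i` is a square in `K`. A relation `Σ_{S ⊆ E} c_S ρ_S = 0` is `X + ρ i Y = 0` with `X Y` combinations over
`E'`; coefficients `c_S + c_{S ∪ {i}} ρ i ∈ K'` vanish, so `c_S = c_{S ∪ {i}} = 0`. -/
def S_MQ : Prop := ∀ (K : Subfield ℝ) (ρ a : ℕ → ℝ) (E : Finset ℕ), (∀ i ∈ E, a i ∈ K) →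
  (∀ i ∈ E, ρ i ^ 2 = a i) → (∀ S ⊆ E, S.Nonempty → ∀ b ∈ K, b ^ 2 ≠ ∏ i ∈ S, a i) →
  ∀ c : Finset ℕ → ℝ, (∀ S, c S ∈ K) → ∑ S ∈ E.powerset, c S * ∏ i ∈ S, ρ i = 0 → ∀ S ⊆ E, c S = 0

/-- NSQ. Proof: let `k` be the largest index `n i`, `i ∈ S`. The polynomials `gv j X` over `ℂ` are pairwise
coprime: if `gv j α = 0` then `gv (j+1) α = -6`, and `gv (j+r) α ≠ 0` for `r ≥ 1` (`-6, 30, 894, ...` increasing
from 30 on); `gv k X` is squarefree: its derivative is `2^k * Π_{j<k} gv j X`. So a complex root `α` of `gv k X`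
has multiplicity one in the product; compare root multiplicities in `p^2 * (product) = q^2`. -/
def S_NSQ : Prop := ∀ (n : ℕ → ℕ) (s : ℕ → Bool), Function.Injective n → ∀ S : Finset ℕ, S.Nonempty →
  ∀ p q : Polynomial ℚ, p ≠ 0 → p ^ 2 * ∏ i ∈ S, ((sg (s i) : Polynomial ℚ) * gv (n i) Polynomial.X) ≠ q ^ 2

/-- a code: a list of monomials `(c, k, l)` standing for `c * τ^k * Π_{i ∈ l} ρ i`, with `l` without
repetitions -/
abbrev C := List (ℤ × ℕ × List ℕ)

/-- value of a code -/
noncomputable def val (τ : ℝ) (ρ : ℕ → ℝ) (L : C) : ℝ :=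
  (L.map (fun e => (e.1 : ℝ) * τ ^ e.2.1 * (e.2.2.map ρ).prod)).sum

/-- all the index lists are without repetitions -/
def Ok (L : C) : Prop := ∀ e ∈ L, e.2.2.Nodup

/-- same elements -/
def same (l l' : List ℕ) : Bool := l.all (fun x => decide (x ∈ l')) && l'.all (fun x => decide (x ∈ l))

/-- coefficient of `τ^k * Π_{i ∈ l} ρ i` -/
def coef (L : C) (k : ℕ) (l : List ℕ) : ℤ :=
  ((L.filter (fun e => decide (e.2.1 = k) && same e.2.2 l)).map (fun e => e.1)).sum

/-- zero test -/
def zt (L : C) : Bool := L.all (fun e => decide (coef L e.2.1 e.2.2 = 0))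

/-- IND (from S_MQ, S_NSQ). Zero test is correct. Proof: if all `coef` of entries vanish, group the sum. Conversely,
let `K = ℚ(τ)` (closure of `{τ}`), `a i = ρ i ^ 2 = sg (s i) * gv (n i) τ`; by S_NSQ and transcendence of `τ` no
nonempty subproduct is a square in `K` (elements of `K` are `q(τ)/p(τ)`). By S_MQ with `E` the set of all indices
in `L`, the coefficients (polynomials in `τ` with integer coefficients) of all `Π_{i ∈ S} ρ i` vanish, and by
transcendence all the integer coefficients vanish. -/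
def S_IND : Prop := ∀ (n : ℕ → ℕ) (s : ℕ → Bool), Function.Injective n → ∀ (τ : ℝ) (ρ : ℕ → ℝ),
  Transcendental ℚ τ → (∀ i, ρ i ^ 2 = (sg (s i) : ℝ) * gv (n i) τ) →
  ∀ L : C, Ok L → (zt L = true ↔ val τ ρ L = 0)

/-- RNG. Computable ring operations on codes. Proof: polynomials in `τ` as lists of integers
(coefficients); the list of `sg (s i) * gv (n i) X` is primitive recursive in `i` (Nat.rec with polynomial
multiplication on lists). Addition: append. Negation: map. Multiplication by `ρ i` of a monomial `(c,k,l)`: if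
`i ∉ l` then `[(c,k,i :: l)]`, else the list of `(c*a_j, k+j, l.erase i)` over the coefficients `a_j` of
`sg (s i) * gv (n i) X`. Multiplication by a monomial: fold over its index list. Multiplication: flatMap. -/
def S_RNG : Prop := ∀ (n : ℕ → ℕ) (s : ℕ → Bool), Primrec n → Primrec s →
  ∃ (ad mu : C × C → C) (ng : C → C), Primrec ad ∧ Primrec mu ∧ Primrec ng ∧ Primrec zt ∧
  (∀ L L', Ok L → Ok L' → Ok (ad (L, L')) ∧ Ok (mu (L, L')) ∧ Ok (ng L)) ∧
  ∀ (τ : ℝ) (ρ : ℕ → ℝ), (∀ i, ρ i ^ 2 = (sg (s i) : ℝ) * gv (n i) τ) →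
    ∀ L L', Ok L → Ok L' → val τ ρ (ad (L, L')) = val τ ρ L + val τ ρ L' ∧
      val τ ρ (mu (L, L')) = val τ ρ L * val τ ρ L' ∧ val τ ρ (ng L) = - val τ ρ L

/-- OKP. Proof: `Nodup` of a list is primitive recursive (bounded quantifiers, or `dedup`-like recursion). -/
def S_OKP : Prop := PrimrecPred (fun L : C => Ok L)

/-- computable presentation, as in the frozen statement -/
def Pres (F : Type) [Field F] (e : ℕ ≃ F) : Prop :=
  Computable₂ (fun a b : ℕ => e.symm (e a + e b)) ∧
  Computable₂ (fun a b : ℕ => e.symm (e a * e b)) ∧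
  Computable (fun a : ℕ => e.symm (-(e a))) ∧
  Computable (fun a : ℕ => e.symm ((e a)⁻¹))

/-- PRE. Presentation from codes with decidable equality. Proof: `p n` holds if `ev n ≠ ev k` for all
`k < n` (computable predicate, infinitely many `n` as `F` is infinite); `e k = ev (the k-th n with p n)`
(`Nat.nth`, or search); `e.symm (ev n)` is computed by searching the `k` with `e k = ev n`. -/
def S_PRE : Prop := ∀ (F : Type) [Field F] [Infinite F] (ev : ℕ → F), Function.Surjective ev →
  ComputablePred (fun x : ℕ × ℕ => ev x.1 = ev x.2) →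
  (∃ f : ℕ × ℕ → ℕ, Computable f ∧ ∀ a b, ev (f (a, b)) = ev a + ev b) →
  (∃ f : ℕ × ℕ → ℕ, Computable f ∧ ∀ a b, ev (f (a, b)) = ev a * ev b) →
  (∃ f : ℕ → ℕ, Computable f ∧ ∀ a, ev (f a) = - ev a) →
  (∃ f : ℕ → ℕ, Computable f ∧ ∀ a, ev (f a) = (ev a)⁻¹) → ∃ e : ℕ ≃ F, Pres F e

/-- the field -/
noncomputable def KF (τ : ℝ) (ρ : ℕ → ℝ) : Subfield ℝ := Subfield.closure ({τ} ∪ Set.range ρ)

/-- QUO (may use S_RNG for closure). Proof: the set of quotients of values is a subfield (division by zero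
gives 0) containing `τ` and the `ρ i`; conversely values of codes are in the closure. -/
def S_QUO : Prop := ∀ (n : ℕ → ℕ) (s : ℕ → Bool), Primrec n → Primrec s → ∀ (τ : ℝ) (ρ : ℕ → ℝ),
  (∀ i, ρ i ^ 2 = (sg (s i) : ℝ) * gv (n i) τ) →
  ∀ x : ℝ, x ∈ KF τ ρ ↔ ∃ L L' : C, Ok L ∧ Ok L' ∧ x = val τ ρ L / val τ ρ L'

/-- KPR (from S_IND, S_RNG, S_OKP, S_PRE, S_QUO). The field is computable. Proof: codes of elements: a natural
number decodes to a pair `(L, L')` of codes (replaced by `([], [])` if it does not decode or `Ok` fails), value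
`val L / val L'`. Surjective by S_QUO. Equality of `L/M` and `L'/M'`: first replace `(L, M)` by `([], [(1,0,[])])`
if `zt M`; then test `zt (ad (mu (L, M'), ng (mu (L', M))))`. Addition: if `zt M` return `(L', M')`, if `zt M'` return
`(L, M)`, else `(L M' + L' M, M M')`. Multiplication `(L L', M M')`, negation `(-L, M)`, inverse `(M, L)`. All by
S_IND. -/
def S_KPR : Prop := ∀ (n : ℕ → ℕ) (s : ℕ → Bool), Primrec n → Primrec s → Function.Injective n →
  ∀ (τ : ℝ) (ρ : ℕ → ℝ), Transcendental ℚ τ → (∀ i, ρ i ^ 2 = (sg (s i) : ℝ) * gv (n i) τ) →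
  ∃ e : ℕ ≃ KF τ ρ, Pres (KF τ ρ) e

/-- ORD. No computable ordering. Proof: `a k = e.symm (gv k τ)` is computable (Nat.rec, `a 0` a constant, with
constants `e.symm 6`; subtraction through addition and negation). `h k = decide (e (a k) ∈ P)` is computable. Squares of
nonzero elements are in `P`. For `i`: `ρ i ≠ 0` and `ρ i ^ 2 = sg (s i) * gv (n i) τ ∈ P`, so
`h (n i) = true` iff `s i = true` (if `s i = false` then `- gv (n i) τ ∈ P`, and `gv (n i) τ ∈ P` would give `0 ∈ P`).
This contradicts `Dat.ins`. -/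
def S_ORD : Prop := ∀ (n : ℕ → ℕ) (s : ℕ → Bool), Dat n s → ∀ (τ : ℝ) (ρ : ℕ → ℝ),
  (∀ i, ρ i ^ 2 = (sg (s i) : ℝ) * gv (n i) τ) → (∀ i, ρ i ≠ 0) →
  ∀ e : ℕ ≃ KF τ ρ, Pres (KF τ ρ) e → ∀ P : Set (KF τ ρ), ComputablePred (fun a : ℕ => e a ∈ P) →
  (0 : KF τ ρ) ∉ P → (∀ x y : KF τ ρ, x ∈ P → y ∈ P → x + y ∈ P) →
  (∀ x y : KF τ ρ, x ∈ P → y ∈ P → x * y ∈ P) → (∀ x : KF τ ρ, x ≠ 0 → x ∈ P ∨ -x ∈ P) → False

/-- RS (from S_INS, S_TAU, S_KPR, S_ORD): the frozen statement S14744. Proof: `ρ i = √(sg (s i) * gv (n i) τ)`;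
the field `KF τ ρ` is a subfield of `ℝ`, so it is formally real. -/
def S_RS : Prop :=
    ¬ (∀ (F : Type) [Field F],
      (∀ (n : ℕ) (c : Fin n → F), ∑ i, c i ^ 2 = 0 → ∀ i, c i = 0) →
      (∃ e : ℕ ≃ F,
        Computable₂ (fun a b : ℕ => e.symm (e a + e b)) ∧
        Computable₂ (fun a b : ℕ => e.symm (e a * e b)) ∧
        Computable (fun a : ℕ => e.symm (-(e a))) ∧
        Computable (fun a : ℕ => e.symm ((e a)⁻¹))) →
      ∃ e : ℕ ≃ F,
        Computable₂ (fun a b : ℕ => e.symm (e a + e b)) ∧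
        Computable₂ (fun a b : ℕ => e.symm (e a * e b)) ∧
        Computable (fun a : ℕ => e.symm (-(e a))) ∧
        Computable (fun a : ℕ => e.symm ((e a)⁻¹)) ∧
        ∃ P : Set F,
          ComputablePred (fun a : ℕ => e a ∈ P) ∧
          (0 : F) ∉ P ∧
          (∀ x y : F, x ∈ P → y ∈ P → x + y ∈ P) ∧
          (∀ x y : F, x ∈ P → y ∈ P → x * y ∈ P) ∧
          (∀ x : F, x ≠ 0 → x ∈ P ∨ -x ∈ P))

end Pool.Agent.H662.FR
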